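import Pool.Agent.Work.MP_223b32_es.Interface

/-!
# DATA3: the eigenvalues of one surface
-/

namespace Pool.Agent.Work.ES

open Finset Polynomial Module Pool.Agent.Work.MP_223b32_ag Pool.Agent.Work.TC
open Pool.Agent.Work.TL (AA Om Stmt_FA)

namespace DATA3

lemma mm_deg {F : Type} [Field F] (c : F) : (C (3 * c) * X : F[X]).degree < (3 : ℕ) := by
  refine lt_of_le_of_lt (degree_C_mul_X_le _) ?_
  norm_num

lemma mm_monic {F : Type} [Field F] (c : F) : (mm c).Monic := by
  unfold mm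
  rw [sub_eq_add_neg]
  refine (monic_X_pow 3).add_of_left ?_
  rw [degree_neg, degree_X_pow]
  exact mm_deg c

lemma mm_natDegree {F : Type} [Field F] (c : F) : (mm c).natDegree = 3 := by
  unfold mm
  apply natDegree_eq_of_degree_eq_some
  rw [degree_sub_eq_left_of_degree_lt, degree_X_pow]
  rw [degree_X_pow]
  exact mm_deg c

/-- An automorphism of the ring of algebraic integers permutes the roots of an integral polynomial. -/
lemma aut {N : ℕ} (P : ℤ[X]) (β : Fin N → ℂ) (β' : Fin N → AA) (hβ' : ∀ i, (β' i : ℂ) = β i)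
    (h : P.map (Int.castRingHom ℂ) = ∏ i, (X - C (β i)))
    (τ : AA ≃+* AA) (i : Fin N) : ∃ j, τ (β' i) = β' j := by
  have h1 : ∀ x : AA, ((aeval x P : AA) : ℂ) = ∏ j, ((x : ℂ) - β j) := by
    intro x
    have h2 : ((aeval x P : AA) : ℂ) = (P.map (Int.castRingHom ℂ)).eval (x : ℂ) := by
      rw [eval_map, ← algebraMap_int_eq, ← aeval_def]
      exact (aeval_algebraMap_apply ℂ x P).symm
    rw [h2, h]
    simp only [eval_prod, eval_sub, eval_X, eval_C]
  have h3 : aeval (β' i) P = (0 : AA) := by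
    apply Subtype.val_injective
    have h4 := h1 (β' i)
    rw [hβ' i] at h4
    have h5 : ∏ j, (β i - β j) = 0 := Finset.prod_eq_zero (mem_univ i) (sub_self _)
    rw [h5] at h4
    exact h4
  have h6 : aeval (τ (β' i)) P = (0 : AA) := by
    have h7 := congrArg τ h3
    rw [map_zero] at h7
    rw [← h7]
    exact aeval_algHom_apply (τ.toRingHom.toIntAlgHom) (β' i) P
  have h8 : ∏ j, ((τ (β' i) : ℂ) - β j) = 0 := by
    rw [← h1, h6]
    rfl
  obtain ⟨j, _, hj⟩ := Finset.prod_eq_zero_iff.1 h8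
  refine ⟨j, ?_⟩
  apply Subtype.val_injective
  rw [sub_eq_zero] at hj
  rw [hj, hβ' j]

lemma rho_two (ρ : AA →+* Om) : ρ 2 = 0 := by
  rw [map_ofNat]
  exact CharTwo.two_eq_zero

lemma rho_odd (ρ : AA →+* Om) (q : ℕ) (hq : Odd q) : ρ (q : AA) = 1 := by
  obtain ⟨t, rfl⟩ := hq
  push_cast
  rw [map_add, map_mul, rho_two, zero_mul, zero_add, map_one]

/-- The symmetry. -/
lemma symm_v (ρ : AA →+* Om) (n q : ℕ) (hq : Odd q) (a b v u : AA) (hab : a * b = (q : AA) ^ 2)
    (ha : a ^ (3 * n) = 1 + 2 * v) (hb : b ^ (3 * n) = 1 + 2 * u) : ρ u = ρ v := by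
  have h1 : (1 + 2 * v) * (1 + 2 * u) = ((q : AA) ^ 2) ^ (3 * n) := by
    rw [← ha, ← hb, ← mul_pow, hab]
  obtain ⟨t, ht⟩ : ∃ t : ℕ, (q ^ 2) ^ (3 * n) = 1 + 8 * t := by
    obtain ⟨s, hs⟩ : ∃ s : ℕ, q ^ 2 = 1 + 8 * s := by
      have h2 : q ^ 2 % 8 = 1 := by
        obtain ⟨m, rfl⟩ := hq
        rcases Nat.even_or_odd m with ⟨l, rfl⟩ | ⟨l, rfl⟩
        · ring_nf; omega
        · ring_nf; omega
      exact ⟨q ^ 2 / 8, by omega⟩
    rw [hs]
    have h3 : (1 + 8 * s) ^ (3 * n) % 8 = 1 := by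
      rw [Nat.pow_mod]
      have : (1 + 8 * s) % 8 = 1 := by omega
      rw [this]
      simp
    exact ⟨(1 + 8 * s) ^ (3 * n) / 8, by omega⟩
  have ht' : ((q : AA) ^ 2) ^ (3 * n) = 1 + 8 * (t : AA) := by exact_mod_cast congrArg (Nat.cast : ℕ → AA) ht
  rw [ht'] at h1
  have h2 : (2 : AA) * (v + u + 2 * (v * u) - 2 * (2 * (t : AA))) = 0 := by linear_combination h1
  have h3 : v + u + 2 * (v * u) - 2 * (2 * (t : AA)) = 0 :=
    (mul_eq_zero.1 h2).resolve_left two_ne_zero
  have h4 := congrArg ρ h3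
  rw [map_sub, map_add, map_add, map_mul, map_mul ρ 2 (2 * (t : AA)), rho_two, zero_mul, zero_mul, map_zero,
    add_zero, sub_zero] at h4
  have h5 := eq_neg_of_add_eq_zero_right h4
  rw [h5, CharTwo.neg_eq]

end DATA3

open DATA3 in
/-- DATA3. -/
theorem stmt_DATA3 (hEXT : Stmt_EXT) (hPT : Stmt_PT) (hPTS : Stmt_PTS) (hFORM : Stmt_FORM)
    (hPAR1 : Stmt_PAR1) (hRED : Stmt_RED4) : Stmt_DATA3 := by
  classical
  intro F K _ _ _ _ _ _ hq6 k hk hfin c w hw
  obtain ⟨hDdeg, hDirr⟩ := hPAR1 F K hq6 k hk hfin c w hw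
  have hnodd : Odd (3 ^ k) := Odd.pow (by decide)
  have hn1 : 3 ^ (k + 1) = 3 * 3 ^ k := by rw [pow_succ, mul_comm]
  generalize hn : 3 ^ k = n at *
  intro α hα ρ
  set q := Fintype.card F with hq
  set D := minpoly F (hc c w) with hD
  have hqodd : Odd q := Nat.odd_iff.2 (by omega)
  have hF2 : ringChar F ≠ 2 := by
    intro h
    have h1 := FiniteField.even_card_of_char_two h
    omega
  have hDm : D.Monic := minpoly.monic (Algebra.IsIntegral.isIntegral _)
  obtain ⟨P, hP⟩ := hα.integral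
  have hN : ∀ r : ℕ, ∃ z : ℤ, 1 ≤ r → (z : ℂ) = ∑ i, α i ^ r ∧ z ≡ cr n r [ZMOD 2] ∧
      (Even r → z ≡ cr n r [ZMOD 4]) ∧ (Odd r → ¬ n ∣ r → z ≡ 2 * ps F w r [ZMOD 4]) := by
    intro r
    by_cases hr : 1 ≤ r
    · obtain ⟨E, _, _, _, hE⟩ := hEXT F r hr
      refine ⟨NN E (mm c) D, fun _ => ?_⟩
      have hE2 : ringChar E ≠ 2 := by
        have h1 : CharP E (ringChar F) :=
          charP_of_injective_algebraMap (algebraMap F E).injective (ringChar F)
        rw [ringChar.eq E (ringChar F)] at *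
        exact hF2
      obtain ⟨h1, h2, h3⟩ := hPTS F E hF2 n (mm c) D hnodd hDm hDdeg (mm_monic c)
        (mm_natDegree c) hDirr
      rw [hE] at h1 h2 h3
      refine ⟨?_, h1, h2, fun ho hnr => ?_⟩
      · have h4 := hα.frob E
        have h5 := congrArg (Int.cast : ℤ → ℂ) (hPT F E hE2 (mm c) D)
        push_cast at h5
        rw [h5, hE] at h4
        exact add_left_cancel h4
      · obtain ⟨h4, h5⟩ := h3 ho hnr
        refine h5.trans ?_
        have h6 := hFORM F K E hq6 (by rw [hfin]; exact hnodd) (by rw [hE]; exact ho) c w hw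
          (by rw [hfin]; exact hDdeg) h4
        rw [hE] at h6
        rw [h6]
        have h7 : quadraticChar K (1 + Aw F w r + Aw F w r ^ 2) ≠ 0 := by
          rw [← h6]
          intro h0
          rw [quadraticChar_eq_zero_iff, mul_eq_zero, Finset.prod_eq_zero_iff,
            Finset.prod_eq_zero_iff] at h0
          rcases h0 with ⟨t, _, ht⟩ | ⟨x, _, hx⟩
          · exact h4 t ht
          · exact h4 _ hx
        unfold ps
        rcases quadraticChar_dichotomy (a := 1 + Aw F w r + Aw F w r ^ 2)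
          (fun h => h7 (by rw [h]; exact quadraticChar_zero)) with h8 | h8
        · rw [h8, if_neg (by norm_num)]
          norm_num
        · rw [h8, if_pos rfl]
          norm_num
    · exact ⟨0, fun h => absurd h hr⟩
  choose N hN using hN
  obtain ⟨α', v, Z, h1, h2, h3, h4, h5, h6⟩ := hRED ρ n q hnodd hqodd α P hP hα.symm N
    (fun r => ps F w r) (fun r hr => (hN r hr).1) (fun r hr => (hN r hr).2.1)
    (fun r hr => (hN r hr).2.2.1) (fun r hr => (hN r hr.pos).2.2.2 hr)
  -- the set of reductions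
  set S : Finset Om := univ.image fun i => ρ (α' i) with hS
  have hScard : S.card = 2 * n := by
    rw [hS, Finset.card_image_of_injective _ h5, Finset.card_univ, Fintype.card_fin]
  have hSmem : ∀ x, x ∈ S ↔ x ^ 3 ^ (k + 1) = 1 ∧ x ^ n ≠ 1 := by
    rw [hn1]
    have hpoly : (X ^ (2 * n) + X ^ n + 1 : Om[X]) ≠ 0 := by
      intro h0
      have h7 := congrArg (fun P => P.coeff 0) h0
      have hn0 : n ≠ 0 := hnodd.pos.ne'
      simp [coeff_X_pow, hn0, hn0.symm] at h7
    have hroot : ∀ x : Om, x ^ (3 * n) = 1 → x ^ n ≠ 1 →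
        x ∈ (X ^ (2 * n) + X ^ n + 1 : Om[X]).roots.toFinset := by
      intro x hx1 hx2
      rw [Multiset.mem_toFinset, mem_roots hpoly, IsRoot.def]
      simp only [eval_add, eval_pow, eval_X, eval_one]
      have h7 : (x ^ n - 1) * (x ^ (2 * n) + x ^ n + 1) = 0 := by
        have : x ^ (3 * n) = x ^ n * (x ^ n * x ^ n) := by ring
        rw [this] at hx1
        have h2n : x ^ (2 * n) = x ^ n * x ^ n := by ring
        rw [h2n]
        linear_combination hx1
      exact (mul_eq_zero.1 h7).resolve_left (sub_ne_zero.2 hx2)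
    have hdeg : (X ^ (2 * n) + X ^ n + 1 : Om[X]).natDegree ≤ 2 * n := by
      have hn0 : 0 < n := hnodd.pos
      refine (natDegree_add_le _ _).trans (max_le ((natDegree_add_le _ _).trans (max_le ?_ ?_)) ?_)
      · exact (natDegree_X_pow_le _)
      · exact (natDegree_X_pow_le _).trans (by omega)
      · rw [natDegree_one]; exact Nat.zero_le _
    have hsub : S ⊆ (X ^ (2 * n) + X ^ n + 1 : Om[X]).roots.toFinset := by
      intro x hx
      obtain ⟨i, _, rfl⟩ := Finset.mem_image.1 hx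
      exact hroot _ (h4 i).1 (h4 i).2
    have hSe : S = (X ^ (2 * n) + X ^ n + 1 : Om[X]).roots.toFinset := by
      refine Finset.eq_of_subset_of_card_le hsub ?_
      rw [hScard]
      exact ((Multiset.toFinset_card_le _).trans (card_roots' _)).trans hdeg
    intro x
    constructor
    · intro hx
      obtain ⟨i, _, rfl⟩ := Finset.mem_image.1 hx
      exact h4 i
    · rintro ⟨hx1, hx2⟩
      rw [hSe]
      exact hroot x hx1 hx2
  have hpair : ∀ i, ∃ j, α' i * α' j = (q : AA) ^ 2 := by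
    intro i
    obtain ⟨j, hj⟩ := hα.symm i
    refine ⟨j, ?_⟩
    apply Subtype.val_injective
    push_cast
    rw [h1, h1, hj]
  have hpairρ : ∀ i j, α' i * α' j = (q : AA) ^ 2 → ρ (α' j) = (ρ (α' i))⁻¹ := by
    intro i j hij
    have h7 := congrArg ρ hij
    rw [map_mul, map_pow, rho_odd ρ q hqodd, one_pow] at h7
    exact eq_inv_of_mul_eq_one_right h7
  refine ⟨α', v, Z, S, h1, h2, h3, hSmem, fun i => Finset.mem_image_of_mem _ (mem_univ i), h5, ?_, ?_,
    ?_, fun τ i => DATA3.aut P α α' h1 hP τ i, ?_⟩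
  · intro x hx
    obtain ⟨i, _, hi⟩ := Finset.mem_image.1 hx
    exact ⟨i, hi⟩
  · intro x hx
    obtain ⟨i, _, rfl⟩ := Finset.mem_image.1 hx
    obtain ⟨j, hj⟩ := hpair i
    rw [← hpairρ i j hj, ← h3, ← h3]
    exact symm_v ρ n q hqodd _ _ _ _ hj (h2 i) (h2 j)
  · intro i j
    refine ⟨hpairρ i j, fun hij => ?_⟩
    obtain ⟨j', hj'⟩ := hpair i
    have h7 := hpairρ i j' hj'
    rw [← hij] at h7
    rw [← h5 h7]
    exact hj'
  · intro r hr hnr
    rw [← h6 r hr hnr, hS, Finset.sum_image (fun i _ j _ hij => h5 hij)]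
    exact Finset.sum_congr rfl fun i _ => by rw [h3]

end Pool.Agent.Work.ES
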