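import Pool.Agent.Work.MP_223b32_es.Interface

/-!
# MAINA: the first part of the theorem
-/

namespace Pool.Agent.Work.ES

open Finset Polynomial Module Pool.Agent.Work.MP_223b32_ag Pool.Agent.Work.TC
open Pool.Agent.Work.TL (AA Om Stmt_FA)

namespace MAINA

section

variable {F : Type} [Field F]

lemma comp_comp_neg (e : F) (D : F[X]) : (D.comp (X - C e)).comp (X + C e) = D := by
  rw [comp_assoc]
  simp

lemma comp_comp_pos (e : F) (D : F[X]) : (D.comp (X + C e)).comp (X - C e) = D := by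
  rw [comp_assoc]
  simp

/-- Translation of the family. -/
lemma ncard_translate (m : F[X]) (c e : F) (n : ℕ) (P P' : F[X] → Prop)
    (h1 : ∀ D : F[X], D ∈ fam F m n ↔ D.comp (X + C e) ∈ fam F (mm c) n)
    (h2 : ∀ D : F[X], P D ↔ P' (D.comp (X + C e))) :
    {D | D ∈ fam F m n ∧ P D}.ncard = {D | D ∈ fam F (mm c) n ∧ P' D}.ncard := by
  have hinj : Function.Injective fun D : F[X] => D.comp (X + C e) := by
    intro D D' h
    have h3 := congrArg (fun D => D.comp (X - C e)) h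
    simp only [comp_comp_pos] at h3
    exact h3
  rw [← Set.ncard_image_of_injective _ hinj]
  congr 1
  ext D'
  constructor
  · rintro ⟨D, ⟨hD1, hD2⟩, rfl⟩
    exact ⟨(h1 D).1 hD1, (h2 D).1 hD2⟩
  · rintro ⟨hD1, hD2⟩
    refine ⟨D'.comp (X - C e), ⟨(h1 _).2 ?_, (h2 _).2 ?_⟩, comp_comp_neg e D'⟩
    · rw [comp_comp_neg]; exact hD1
    · rw [comp_comp_neg]; exact hD2

end

/-- From noncubes to polynomials. -/
lemma ratio (hPAR2 : Stmt_PAR2) {F K : Type} [Field F] [Fintype F] [Field K] [Fintype K]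
    [Algebra F K] (hq6 : Fintype.card F % 6 = 1) {k : ℕ} (hk : 1 ≤ k)
    (hfin : Module.finrank F K = 3 ^ k) (c : F) (P : F[X] → Prop) (B : ℝ)
    (hB : (Nat.card {w : K // NC w ∧ P (minpoly F (hc c w))} : ℝ) ≤
      B * (Nat.card {w : K // NC w} : ℝ)) :
    ({D | D ∈ fam F (mm c) (3 ^ k) ∧ P D}.ncard : ℝ) ≤
      B * ((fam F (mm c) (3 ^ k)).ncard : ℝ) := by
  classical
  have h1 := hPAR2 F K hq6 k hk hfin c P
  have h2 := hPAR2 F K hq6 k hk hfin c fun _ => True
  simp only [and_true] at h2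
  have h3 : {D | D ∈ fam F (mm c) (3 ^ k)} = fam F (mm c) (3 ^ k) := rfl
  rw [h3] at h2
  rw [← h1, ← h2] at hB
  have hM : 0 < (if c = 0 then 1 else 2) * 3 ^ k := by
    split_ifs <;> positivity
  generalize (if c = 0 then 1 else 2) * 3 ^ k = M at hM hB
  have hMpos : (0 : ℝ) < M := by exact_mod_cast hM
  rw [Nat.cast_mul, Nat.cast_mul] at hB
  refine le_of_mul_le_mul_left (hB.trans (le_of_eq ?_)) hMpos
  ring

/-- The family is not empty. -/
lemma pos (hPAR2 : Stmt_PAR2) (hNCC : Stmt_NCC) {F K : Type} [Field F] [Fintype F] [Field K]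
    [Fintype K] [Algebra F K] (hq6 : Fintype.card F % 6 = 1) {k : ℕ} (hk : 1 ≤ k)
    (hfin : Module.finrank F K = 3 ^ k) (c : F) : 0 < (fam F (mm c) (3 ^ k)).ncard := by
  classical
  have h2 := hPAR2 F K hq6 k hk hfin c fun _ => True
  simp only [and_true] at h2
  have h3 : {D | D ∈ fam F (mm c) (3 ^ k)} = fam F (mm c) (3 ^ k) := rfl
  rw [h3] at h2
  have hcard : Fintype.card K % 3 = 1 := by
    rw [Module.card_eq_pow_finrank (K := F) (V := K), Nat.pow_mod]
    have : Fintype.card F % 3 = 1 := by omega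
    rw [this, one_pow]
    rfl
  have h4 := hNCC K hcard
  have h5 : 1 < Fintype.card K := Fintype.one_lt_card
  by_contra h0
  have h6 : (fam F (mm c) (3 ^ k)).ncard = 0 := by omega
  rw [h6, mul_zero] at h2
  rw [← h2] at h4
  omega

lemma mono_card {K : Type} [Fintype K] (P P' : K → Prop) (h : ∀ w, P w → P' w) :
    (Nat.card {w : K // P w} : ℝ) ≤ (Nat.card {w : K // P' w} : ℝ) := by
  have : Nat.card {w : K // P w} ≤ Nat.card {w : K // P' w} :=
    Nat.card_le_card_of_injective (fun w => ⟨w.1, h w.1 w.2⟩) fun a b hab =>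
      Subtype.ext (congrArg (fun x : {w : K // P' w} => x.1) hab)
  exact_mod_cast this

end MAINA

open MAINA in
/-- MAINA. -/
theorem stmt_MAINA (hONE : Stmt_ONE3) (hCNTB : Stmt_CNTB) (hPAR2 : Stmt_PAR2)
    (hNCC : Stmt_NCC) (hEXT : Stmt_EXT) (hTRL : Stmt_TRL) : Stmt_MAINA := by
  classical
  intro F _ _ hq6 k hk m hm1 hm2
  obtain ⟨K, _, _, _, hK⟩ := hEXT F (3 ^ k) (by positivity)
  obtain ⟨c, e, hce⟩ := hTRL F hq6 m hm1 hm2
  obtain ⟨hfam, heig⟩ := hce (3 ^ k) (Nat.one_le_pow _ _ (by norm_num))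
  have hk1 : 1 ≤ k := by omega
  have hfamcard : (fam F m (3 ^ k)).ncard = (fam F (mm c) (3 ^ k)).ncard := by
    have h := ncard_translate m c e (3 ^ k) (fun _ => True) (fun _ => True) hfam
      (fun _ => Iff.rfl)
    simp only [and_true] at h
    exact h
  rw [hfamcard]
  refine ⟨pos hPAR2 hNCC hq6 hk1 hK c, fun j hj1 hj2 => ?_⟩
  have hexc : (exceptional F m (3 ^ k) fun i => i < 3 ^ (k + 1 - j)).ncard =
      {D | D ∈ fam F (mm c) (3 ^ k) ∧ ∃ α : Fin (2 * 3 ^ k) → ℂ, IsEig F (mm c) D α ∧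
        ¬ TateS (Fintype.card F) α fun i => i < 3 ^ (k + 1 - j)}.ncard := by
    refine ncard_translate m c e (3 ^ k) _ _ hfam fun D => ?_
    simp only [heig]
  rw [hexc]
  refine ratio hPAR2 hq6 hk1 hK c _ _ (le_trans (mono_card _ _ ?_)
    (hCNTB F K hq6 k hk hK j hj1 hj2))
  rintro w ⟨hw, α, hα1, hα2⟩
  refine ⟨hw, ?_⟩
  by_contra h
  push Not at h
  exact hα2 (hONE F K hq6 k hk1 hK c w hw α hα1 j hj1 hj2 h)

end Pool.Agent.Work.ES
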