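import Pool.Agent.Work.MP_223b32_es_helper28.ONEC
import Pool.Agent.Work.MP_223b32_es_helper5.B0C

/-!
# VALB: the last coefficient of the `L`-function is not a unit
-/

namespace Pool.Agent.Work.ES

open Finset Polynomial Module Pool.Agent.Work.MP_223b32_ag Pool.Agent.Work.TC
open Pool.Agent.Work.TL (AA Om Stmt_FA)

namespace VALB

variable {F : Type} [Field F] [Fintype F] {L : Type} [Field L]

/-- The lemma of Chevalley and Warning, with coefficients in a larger field. -/
lemma mv_sum (ι : F →+* L) {σ : Type} [Fintype σ] [DecidableEq σ] (f : MvPolynomial σ L)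
    (h : f.totalDegree < (Fintype.card F - 1) * Fintype.card σ) :
    ∑ x : σ → F, MvPolynomial.eval (fun i => ι (x i)) f = 0 := by
  classical
  simp only [MvPolynomial.eval_eq']
  rw [sum_comm]
  refine sum_eq_zero fun d hd => ?_
  rw [← mul_sum]
  have h1 : ∑ x : σ → F, ∏ i, ι (x i) ^ d i = ∏ i, ∑ a : F, ι a ^ d i := by
    rw [Finset.prod_univ_sum]
    simp only [Fintype.piFinset_univ]
  obtain ⟨i, hi⟩ := MvPolynomial.exists_degree_lt f (Fintype.card F - 1) h hd
  have h2 : ∑ a : F, ι a ^ d i = 0 := by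
    have h3 := FiniteField.sum_pow_lt_card_sub_one F (d i) hi
    have h4 := congrArg ι h3
    rw [map_sum, map_zero] at h4
    simp only [map_pow] at h4
    exact h4
  rw [h1, prod_eq_zero (mem_univ i) h2, mul_zero]

/-- The roots of unity are in the image. -/
lemma exists_pre (ι : F →+* L) (y : L) (hy : y ^ (Fintype.card F - 1) = 1) :
    ∃ c : F, c ≠ 0 ∧ ι c = y := by
  classical
  have hq1 : 1 < Fintype.card F := Fintype.one_lt_card
  set q := Fintype.card F with hq
  have hne : (X ^ (q - 1) - 1 : L[X]) ≠ 0 := by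
    have h1 := X_pow_sub_C_ne_zero (show 0 < q - 1 by omega) (1 : L)
    rwa [map_one] at h1
  have hsub : (univ.erase (0 : F)).image ι ⊆ (X ^ (q - 1) - 1 : L[X]).roots.toFinset := by
    intro z hz
    obtain ⟨c, hc, rfl⟩ := mem_image.1 hz
    rw [Multiset.mem_toFinset, mem_roots hne, IsRoot.def, eval_sub, eval_pow, eval_X, eval_one,
      ← map_pow, FiniteField.pow_card_sub_one_eq_one c (mem_erase.1 hc).1, map_one, sub_self]
  have hcard1 : ((univ.erase (0 : F)).image ι).card = q - 1 := by
    rw [card_image_of_injective _ ι.injective, card_erase_of_mem (mem_univ _), card_univ]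
  have hcard2 : (X ^ (q - 1) - 1 : L[X]).roots.toFinset.card ≤ q - 1 := by
    refine (Multiset.toFinset_card_le _).trans ((card_roots' _).trans ?_)
    refine (natDegree_sub_le _ _).trans ?_
    simp
  have heq := Finset.eq_of_subset_of_card_le hsub (by rw [hcard1]; exact hcard2)
  have hmem : y ∈ (univ.erase (0 : F)).image ι := by
    rw [heq, Multiset.mem_toFinset, mem_roots hne, IsRoot.def, eval_sub, eval_pow, eval_X,
      eval_one, hy, sub_self]
  obtain ⟨c, hc, rfl⟩ := mem_image.1 hmem
  exact ⟨c, (mem_erase.1 hc).1, rfl⟩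

/-- A character with values in `L` is a power of the embedding. -/
lemma exists_exp (ι : F →+* L) (f : Fˣ →* L) :
    ∃ e : ℕ, 1 ≤ e ∧ e ≤ Fintype.card F - 1 ∧ ∀ u : Fˣ, f u = ι (u : F) ^ e := by
  classical
  have hq1 : 1 < Fintype.card F := Fintype.one_lt_card
  obtain ⟨g, hg⟩ := IsCyclic.exists_monoid_generator (α := Fˣ)
  have hg1 : g ^ (Fintype.card F - 1) = 1 := by
    apply Units.ext
    rw [Units.val_pow_eq_pow_val, Units.val_one]
    exact FiniteField.pow_card_sub_one_eq_one _ g.ne_zero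
  obtain ⟨c, hc0, hc⟩ := exists_pre ι (f g) (by rw [← map_pow, hg1, map_one])
  obtain ⟨m, hm⟩ := Submonoid.mem_powers_iff _ _ |>.1 (hg (Units.mk0 c hc0))
  have hm' : ι (g : F) ^ m = f g := by
    rw [← hc, ← map_pow, ← Units.val_pow_eq_pow_val, hm, Units.val_mk0]
  have hper : ι (g : F) ^ (Fintype.card F - 1) = 1 := by
    rw [← map_pow, FiniteField.pow_card_sub_one_eq_one _ g.ne_zero, map_one]
  have key : ∃ e : ℕ, 1 ≤ e ∧ e ≤ Fintype.card F - 1 ∧ ι (g : F) ^ e = f g := by
    rcases Nat.eq_zero_or_pos (m % (Fintype.card F - 1)) with h | h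
    · refine ⟨Fintype.card F - 1, by omega, le_rfl, ?_⟩
      rw [hper, ← hm', ← Nat.div_add_mod m (Fintype.card F - 1), h, add_zero, pow_mul, hper,
        one_pow]
    · refine ⟨m % (Fintype.card F - 1), h, (Nat.mod_lt _ (by omega)).le, ?_⟩
      conv_rhs => rw [← hm', ← Nat.div_add_mod m (Fintype.card F - 1), pow_add, pow_mul, hper,
        one_pow, one_mul]
  obtain ⟨e, he1, he2, he⟩ := key
  refine ⟨e, he1, he2, fun u => ?_⟩
  obtain ⟨j, rfl⟩ := Submonoid.mem_powers_iff _ _ |>.1 (hg u)
  rw [map_pow, ← he, Units.val_pow_eq_pow_val, map_pow, ← pow_mul, ← pow_mul, mul_comm]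

lemma half_pow (q n : ℕ) (hq : Odd q) : q ^ n / 2 = ∑ i ∈ range n, q ^ i * (q / 2) := by
  obtain ⟨h, hh⟩ := hq
  have h3 : ∀ A S : ℕ, A = 2 * S + 1 → A * q = 2 * (S + A * h) + 1 := by
    intro A S hA
    calc A * q = A * (2 * h + 1) := by rw [hh]
      _ = 2 * (A * h) + A := by ring
      _ = 2 * (S + A * h) + 1 := by omega
  have h1 : ∀ n : ℕ, q ^ n = 2 * (∑ i ∈ range n, q ^ i * h) + 1 := by
    intro n
    induction n with
    | zero => simp
    | succ n ih =>
      rw [sum_range_succ, pow_succ]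
      exact h3 _ _ ih
  have h2 : q / 2 = h := by omega
  rw [h2, h1 n]
  omega

/-- Powers of the values. -/
lemma aeval_pow {K : Type} [Field K] [Algebra F K] (a : K) (h : F[X]) (i : ℕ) :
    (aeval a h) ^ Fintype.card F ^ i = aeval (a ^ Fintype.card F ^ i) h := by
  induction i with
  | zero => simp
  | succ i ih =>
    have h1 : ∀ x : K, FiniteField.frobeniusAlgHom F K x = x ^ Fintype.card F := fun x => rfl
    rw [pow_succ, pow_mul, ih, pow_mul, ← h1, ← h1, aeval_algHom_apply]

end VALB

open VALB ONEC in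
/-- VALB. -/
theorem stmt_VALB : Stmt_VALB := by
  classical
  intro F K _ _ _ _ _ _ _ p _ _ hq6 hodd hn2 a ha0 hmin τ hτ1 hτ3 π x hx
  set q := Fintype.card F with hq
  have hq1 : 1 < q := Fintype.one_lt_card
  have hqodd : Odd q := Nat.odd_iff.2 (by omega)
  have hF2 : ringChar F ≠ 2 := by
    intro h
    have h1 := FiniteField.even_card_of_char_two h
    omega
  have hK2 : ringChar K ≠ 2 := by
    rw [← Algebra.ringChar_eq F K]
    exact hF2
  have hKp : CharP K p := charP_of_injective_algebraMap (algebraMap F K).injective p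
  let _ : Algebra (ZMod p) K := ZMod.algebra K p
  have _ : Module.Finite (ZMod p) K := Module.Finite.of_finite
  let ιK : K →+* AlgebraicClosure (ZMod p) :=
    (IsAlgClosed.lift : K →ₐ[ZMod p] AlgebraicClosure (ZMod p)).toRingHom
  let ι : F →+* AlgebraicClosure (ZMod p) := ιK.comp (algebraMap F K)
  set n := Module.finrank F K with hn
  have hn3 : 3 ≤ n := by
    obtain ⟨t, ht⟩ := hodd
    omega
  obtain ⟨n', hn'⟩ : ∃ n', n = n' + 1 := ⟨n - 1, by omega⟩
  have hcardK : Fintype.card K = q ^ n := Module.card_eq_pow_finrank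
  set ψ : MulChar F ℂ := qc F * τ with hψ
  -- the character modulo `p`
  let f : Fˣ →* AlgebraicClosure (ZMod p) :=
    { toFun := fun u => π ⟨ψ u, int_mulChar ψ u⟩
      map_one' := by
        rw [← map_one π]
        refine congrArg π (Subtype.ext ?_)
        show ψ ((1 : Fˣ) : F) = 1
        rw [Units.val_one, map_one]
      map_mul' := fun u v => by
        rw [← map_mul π]
        refine congrArg π (Subtype.ext ?_)
        show ψ ((u * v : Fˣ) : F) = ψ u * ψ v
        rw [Units.val_mul, map_mul] }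
  obtain ⟨e, he1, he2, he⟩ := exists_exp ι f
  have hψι : ∀ c : F, π ⟨ψ c, int_mulChar ψ c⟩ = ι c ^ e := by
    intro c
    by_cases hc : c = 0
    · subst hc
      rw [show ι 0 = 0 from map_zero ι, zero_pow (by omega), ← map_zero π]
      exact congrArg π (Subtype.ext (MulChar.map_zero ψ))
    · exact he (Units.mk0 c hc)
  -- the polynomial
  rw [hn'] at hx
  set b : ℕ → AlgebraicClosure (ZMod p) := fun i => ιK a ^ q ^ i with hb
  set G : ℕ → MvPolynomial (Fin (n' + 1)) (AlgebraicClosure (ZMod p)) := fun i =>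
    MvPolynomial.C (b i ^ (n' + 1)) +
      ∑ j : Fin (n' + 1), MvPolynomial.C (b i ^ (j : ℕ)) * MvPolynomial.X j with hG
  set P : MvPolynomial (Fin (n' + 1)) (AlgebraicClosure (ZMod p)) :=
    (∏ i ∈ range n, G i ^ (q / 2)) * MvPolynomial.X 0 ^ e with hP
  have hGdeg : ∀ i, (G i).totalDegree ≤ 1 := by
    intro i
    refine (MvPolynomial.totalDegree_add _ _).trans (max_le ?_ ?_)
    · rw [MvPolynomial.totalDegree_C]; exact Nat.zero_le _
    · refine (MvPolynomial.totalDegree_finsetSum _ _).trans (Finset.sup_le fun j _ => ?_)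
      refine (MvPolynomial.totalDegree_mul _ _).trans ?_
      rw [MvPolynomial.totalDegree_C, MvPolynomial.totalDegree_X]
  have hPdeg : P.totalDegree ≤ n * (q / 2) + e := by
    refine (MvPolynomial.totalDegree_mul _ _).trans (add_le_add ?_ ?_)
    · refine (MvPolynomial.totalDegree_finsetProd _ _).trans ?_
      refine (sum_le_sum (g := fun _ => q / 2) fun i _ => ?_).trans ?_
      · refine (MvPolynomial.totalDegree_pow _ _).trans ?_
        calc q / 2 * (G i).totalDegree ≤ q / 2 * 1 := Nat.mul_le_mul_left _ (hGdeg i)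
          _ = q / 2 := mul_one _
      · rw [sum_const, card_range, smul_eq_mul]
    · refine (MvPolynomial.totalDegree_pow _ _).trans ?_
      rw [MvPolynomial.totalDegree_X, mul_one]
  have hsum := mv_sum ι P (by
    rw [Fintype.card_fin]
    refine lt_of_le_of_lt hPdeg ?_
    rw [← hn', ← hq]
    obtain ⟨h, hh⟩ := hqodd
    have h1 : q / 2 = h := by omega
    have h2 : q - 1 = 2 * h := by omega
    rw [h1, h2]
    have h3 : e ≤ 2 * h := by omega
    have h4 : 0 < h := by omega
    have h5 : 3 * h ≤ n * h := Nat.mul_le_mul_right _ hn3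
    have h6 : 2 * h * n = n * h + n * h := by ring
    omega)
  -- comparison
  have hxA : x = ∑ c : Fin (n' + 1) → F,
      ((quadraticChar K (aeval a (mon (n' + 1) c)) : ℤ) : AA) *
        ⟨ψ (c 0), int_mulChar ψ (c 0)⟩ := by
    apply Subtype.val_injective
    have h1 : ((∑ c : Fin (n' + 1) → F,
      ((quadraticChar K (aeval a (mon (n' + 1) c)) : ℤ) : AA) *
        ⟨ψ (c 0), int_mulChar ψ (c 0)⟩ : AA) : ℂ) = ∑ c : Fin (n' + 1) → F,
          ((quadraticChar K (aeval a (mon (n' + 1) c)) : ℤ) : ℂ) * ψ (c 0) := by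
      push_cast
      rfl
    show (x : ℂ) = _
    rw [h1, hx]
    unfold msumC
    refine sum_congr rfl fun c _ => ?_
    show (quadraticChar K (aeval a (mon (n' + 1) c)) : ℂ) * ψ ((mon (n' + 1) c).coeff 0) = _
    rw [B0C.coeff_mon]
  rw [hxA, map_sum, ← hsum]
  refine sum_congr rfl fun c _ => ?_
  rw [map_mul, map_intCast, hψι, hP, map_mul, map_pow, MvPolynomial.eval_X]
  congr 1
  have h1 : ((quadraticChar K (aeval a (mon (n' + 1) c)) : ℤ) : AlgebraicClosure (ZMod p)) =
      ιK ((aeval a (mon (n' + 1) c)) ^ (Fintype.card K / 2)) := by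
    rw [← quadraticChar_eq_pow_of_char_ne_two' hK2, map_intCast]
  rw [h1, hcardK, half_pow q n hqodd, ← prod_pow_eq_pow_sum, map_prod, map_prod]
  refine prod_congr rfl fun i _ => ?_
  rw [pow_mul, hq, aeval_pow, ← hq, map_pow, map_pow]
  congr 1
  rw [B0C.eval_mon, hG]
  simp only [map_add, map_sum, map_mul, map_pow, MvPolynomial.eval_C, MvPolynomial.eval_X]
  exact congrArg₂ (· + ·) rfl (sum_congr rfl fun j _ => mul_comm _ _)

end Pool.Agent.Work.ES
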