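import Pool.Agent.Work.MP_223b32_es_helper28.RELS
import Pool.Agent.Work.MP_223b32_es.DefsZ

/-!
# The multiplicative relations between the eigenvalues: Newton polygons
-/

namespace Pool.Agent.Work.ES

open Finset Polynomial Module Pool.Agent.Work.MP_223b32_ag Pool.Agent.Work.TC
open Pool.Agent.Work.TL (AA Om Stmt_FA)

namespace RELD

/-- Combinatorial part: the sum of the positive parts is even if the sum over a half is zero. -/
lemma even_sum {M : ℕ} (h : ℕ) (a : Fin M → ℕ) (bar : Fin M → Fin M) (hbb : ∀ i, bar (bar i) = i)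
    (I : Finset (Fin M)) (hI : ∀ i, bar i ∈ I ↔ i ∉ I) (ha : ∀ i, a i + a (bar i) = 2 * h)
    (hsum : ∑ i ∈ I, ((a i : ℤ) - h) = 0) : Even (∑ i, (h - a i)) := by
  classical
  have h1 : ∑ i, (h - a i) = ∑ i ∈ I, ((h - a i) + (h - a (bar i))) := by
    rw [← Finset.sum_add_sum_compl I, Finset.sum_add_distrib]
    congr 1
    refine Finset.sum_nbij' bar bar ?_ ?_ ?_ ?_ ?_
    · intro i hi
      rw [mem_compl] at hi
      exact (hI i).2 hi
    · intro i hi
      rw [mem_compl, hI]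
      exact fun h => h hi
    · intro i _; exact hbb i
    · intro i _; exact hbb i
    · intro i _; rw [hbb]
  have h2 : ∀ i, Even ((((h - a i) + (h - a (bar i)) : ℕ) : ℤ) - ((a i : ℤ) - h)) := by
    intro i
    have h3 := ha i
    rcases le_total (a i) h with h4 | h4
    · have h5 : h - a (bar i) = 0 := by omega
      rw [h5, add_zero, Nat.cast_sub h4]
      exact ⟨(h : ℤ) - a i, by ring⟩
    · have h5 : h - a i = 0 := by omega
      have h6 : h - a (bar i) = a i - h := by omega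
      rw [h5, h6, zero_add, Nat.cast_sub h4]
      exact ⟨0, by ring⟩
  have h3 : Even (((∑ i, (h - a i) : ℕ) : ℤ) - ∑ i ∈ I, ((a i : ℤ) - h)) := by
    rw [h1, Nat.cast_sum, ← Finset.sum_sub_distrib]
    exact Finset.sum_induction _ Even (fun a b ha hb => ha.add hb) (by simp) fun i _ => h2 i
  rw [hsum, sub_zero] at h3
  exact_mod_cast h3

end RELD

open ONE3 RELD in
/-- The relations of any length, if the Newton polygon has the property `OddSum`. -/
theorem relD (hDATA : Stmt_DATA3) (hMIN : Stmt_MIN) (hFA : Stmt_FA) (hRHO : Stmt_RHO)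
    (hPSYM : Stmt_PSYM) (F K : Type) [Field F] [Fintype F] [Field K] [Fintype K]
    [DecidableEq K] [Algebra F K] (hq6 : Fintype.card F % 6 = 1)
    (k : ℕ) (hk : 1 ≤ k) (hfin : Module.finrank F K = 3 ^ k) (c : F) (w : K) (hw : NC w)
    (α : Fin (2 * 3 ^ k) → ℂ) (hα : IsEig F (mm c) (minpoly F (hc c w)) α)
    (hodd : OddSum (Fintype.card F) α) (hbad : ∀ i, 1 ≤ i → i ≤ k → ¬ BadAt F k i w) :
    RelP (Fintype.card F) α fun _ => True := by
  classical
  obtain ⟨ρ⟩ := hRHO
  obtain ⟨σ, hσ⟩ := hFA ρ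
  obtain ⟨α', v, Z, S, h1, h2, h3, h4, h5, h6, h7, h8, h9, h10, h11⟩ :=
    hDATA F K hq6 k hk hfin c w hw α hα ρ
  set q := Fintype.card F with hq
  have hq1 : 1 < q := Fintype.one_lt_card
  have hq0 : (q : ℂ) ≠ 0 := by
    have : q ≠ 0 := by omega
    exact_mod_cast this
  have hqodd : Odd q := Nat.odd_iff.2 (by omega)
  have hpair : ∀ i, ∃ j, ρ (α' j) = (ρ (α' i))⁻¹ := by
    intro i
    exact h7 (ρ (α' i))⁻¹ (by
      obtain ⟨hS1, hS2⟩ := (h4 _).1 (h5 i)
      refine (h4 _).2 ⟨by rw [inv_pow, hS1, inv_one], fun h0 => hS2 ?_⟩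
      rw [inv_pow, inv_eq_one] at h0
      exact h0)
  choose bar hbarρ using hpair
  have hbb : ∀ i, bar (bar i) = i := by
    intro i
    apply h6
    show ρ (α' (bar (bar i))) = ρ (α' i)
    rw [hbarρ, hbarρ, inv_inv]
  have hbar : ∀ i, α i * α (bar i) = (q : ℂ) ^ 2 := by
    intro i
    have h12 := congrArg (Subtype.val : AA → ℂ) ((h9 i (bar i)).2 (hbarρ i))
    push_cast at h12
    rw [← h1, ← h1]
    exact h12
  have hfalse : ∀ N : ℕ, 0 < N → (∀ ϖ : Om, ϖ ^ 3 = 1 → ϖ ≠ 1 →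
      (∏ i ∈ univ.filter (fun i => ρ (α' i) ^ 3 ^ k = ϖ), ((α' i : ℂ) / q)) ^ N = 1) → False := by
    intro N hN0 hrel
    obtain ⟨u, h, a, hu, hh, hua, hoddsum⟩ := hodd
    have huq : 0 < u q := u.pos hq0
    -- a primitive cube root of unity
    have hpos : 0 < 2 * 3 ^ k := by positivity
    set i₀ : Fin (2 * 3 ^ k) := ⟨0, hpos⟩ with hi₀
    set ϖ : Om := ρ (α' i₀) ^ 3 ^ k with hϖ
    obtain ⟨hS1, hS2⟩ := (h4 _).1 (h5 i₀)
    have hϖ3 : ϖ ^ 3 = 1 := by
      rw [hϖ, ← pow_mul, ← pow_succ]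
      exact hS1
    have hcube : ∀ i, (ρ (α' i) ^ 3 ^ k) ^ 3 = 1 ∧ ρ (α' i) ^ 3 ^ k ≠ 1 := by
      intro i
      obtain ⟨hS1, hS2⟩ := (h4 _).1 (h5 i)
      refine ⟨?_, hS2⟩
      rw [← pow_mul, ← pow_succ]
      exact hS1
    have hϖ0 : ϖ ≠ 0 := by
      intro h0
      rw [h0] at hϖ3
      norm_num at hϖ3
    have hϖq : ϖ ^ 2 + ϖ + 1 = 0 := by
      have h12 : (ϖ - 1) * (ϖ ^ 2 + ϖ + 1) = 0 := by
        have : (ϖ - 1) * (ϖ ^ 2 + ϖ + 1) = ϖ ^ 3 - 1 := by ring
        rw [this, hϖ3, sub_self]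
      exact (mul_eq_zero.1 h12).resolve_left (sub_ne_zero.2 hS2)
    set I := univ.filter (fun i => ρ (α' i) ^ 3 ^ k = ϖ) with hI
    have hIbar : ∀ i, bar i ∈ I ↔ i ∉ I := by
      intro i
      obtain ⟨hx3, hx1⟩ := hcube i
      set x := ρ (α' i) ^ 3 ^ k with hx
      have hbx : ρ (α' (bar i)) ^ 3 ^ k = x⁻¹ := by rw [hbarρ, inv_pow]
      have hx0 : x ≠ 0 := by
        intro h0
        rw [h0] at hx3
        norm_num at hx3
      have hxq : x ^ 2 + x + 1 = 0 := by
        have h12 : (x - 1) * (x ^ 2 + x + 1) = 0 := by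
          have : (x - 1) * (x ^ 2 + x + 1) = x ^ 3 - 1 := by ring
          rw [this, hx3, sub_self]
        exact (mul_eq_zero.1 h12).resolve_left (sub_ne_zero.2 hx1)
      have hmem1 : i ∈ I ↔ x = ϖ := by simp [hI, hx]
      have hmem2 : bar i ∈ I ↔ x⁻¹ = ϖ := by simp [hI, hbx]
      rw [hmem1, hmem2]
      have h12 : (x - ϖ) * (x + ϖ + 1) = 0 := by
        have : (x - ϖ) * (x + ϖ + 1) = (x ^ 2 + x + 1) - (ϖ ^ 2 + ϖ + 1) := by ring
        rw [this, hxq, hϖq, sub_self]
      constructor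
      · intro h13 h14
        rw [h14] at h13
        have h15 : ϖ * ϖ = 1 := by
          nth_rewrite 1 [← h13]
          exact inv_mul_cancel₀ hϖ0
        apply hS2
        have h16 : ϖ ^ 3 = ϖ * ϖ * ϖ := by ring
        rw [h16, h15, one_mul] at hϖ3
        exact hϖ3
      · intro h13
        have h14 : x = -1 - ϖ := by
          have h15 := (mul_eq_zero.1 h12).resolve_left (sub_ne_zero.2 h13)
          linear_combination h15
        refine inv_eq_of_mul_eq_one_right ?_
        rw [h14]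
        linear_combination -hϖq
    have haa : ∀ i, a i + a (bar i) = 2 * h := by
      intro i
      have h12 := congrArg (fun z => u z ^ h) (hbar i)
      simp only [map_mul, map_pow, mul_pow] at h12
      rw [hua, hua, ← pow_add, ← pow_mul] at h12
      exact pow_right_injective₀ huq hu.ne h12
    have hsum : ∑ i ∈ I, ((a i : ℤ) - h) = 0 := by
      have h12 := hrel ϖ hϖ3 hS2
      have h13 := congrArg u h12
      rw [map_pow, map_one] at h13
      have h14 := (pow_eq_one_iff_of_nonneg (u.nonneg _) hN0.ne').1 h13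
      have h15 : u (∏ i ∈ I, ((α' i : ℂ) / q)) ^ h = u q ^ ∑ i ∈ I, ((a i : ℤ) - h) := by
        rw [map_prod, ← Finset.prod_pow]
        have h16 : ∀ T : Finset (Fin (2 * 3 ^ k)), u q ^ ∑ i ∈ T, ((a i : ℤ) - h) =
            ∏ i ∈ T, u q ^ ((a i : ℤ) - h) := by
          intro T
          induction T using Finset.induction_on with
          | empty => simp
          | insert b T hb ih => rw [sum_insert hb, prod_insert hb, zpow_add₀ huq.ne', ih]
        rw [h16]
        refine Finset.prod_congr rfl fun i _ => ?_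
        rw [map_div₀, div_pow, h1, hua, zpow_sub₀ huq.ne', zpow_natCast, zpow_natCast]
      rw [h14, one_pow] at h15
      by_contra hne
      exact hne ((zpow_eq_one_iff_right₀ huq.le hu.ne).1 h15.symm)
    exact (Nat.not_even_iff_odd.2 hoddsum) (even_sum h a bar hbb I hIbar haa hsum)
  -- the relations
  intro t ht0 _ N hN0 hprod
  have hrel : (t.map fun i => (α' i : ℂ)).prod ^ N = ((q : ℂ) ^ t.card) ^ N := by
    simp only [h1]
    exact hprod
  rcases hMIN ρ σ hσ k q hk hqodd α' v Z S h2 h3 h4 h5 h6 h7 h8 h9 h10 (fun l hl1 hl2 => by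
      obtain ⟨r, hr1, hr2, hr3, hr4, hr5⟩ := exists_odd hPSYM hq6 hfin hw.1 hl1 hl2
        (hbad l hl1 hl2)
      refine ⟨r, hr3, hr4, ?_⟩
      rw [h11 r hr1 hr2, hr5]
      simp) t ht0 N hN0 hrel with ⟨i, j, t', ht', hij⟩ | ⟨N', hN', hrel'⟩
  · refine ⟨i, j, t', ht', ?_⟩
    rw [← h1, ← h1]
    have hij' := congrArg (Subtype.val : AA → ℂ) hij
    push_cast at hij'
    exact hij'
  · exact (hfalse N' hN' hrel').elim

end Pool.Agent.Work.ES
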