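import Pool.Agent.Work.MP_223b32_es_helper28.YMAIN
import Pool.Agent.Work.MP_223b32_es_helper28.RELD
import Pool.Agent.Work.MP_223b32_es.DefsW

/-!
# The theorem in all codimensions, with distinct eigenvalues
-/

namespace Pool.Agent.Work.ES

open Finset Polynomial Module Pool.Agent.Work.MP_223b32_ag Pool.Agent.Work.TC
open Pool.Agent.Work.TL (AA Om Stmt_FA)

open ONE3 in
/-- The eigenvalues remain distinct, and different from `Q`. -/
theorem distinct_of_rel (hDATA : Stmt_DATA3) (hRHO : Stmt_RHO) (F K : Type) [Field F] [Fintype F]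
    [Field K] [Fintype K] [DecidableEq K] [Algebra F K] (hq6 : Fintype.card F % 6 = 1) (k : ℕ)
    (hk : 1 ≤ k) (hfin : Module.finrank F K = 3 ^ k) (c0 : F) (w : K) (hw : NC w)
    (α : Fin (2 * 3 ^ k) → ℂ) (hα : IsEig F (mm c0) (minpoly F (hc c0 w)) α) (c : ℕ → Prop)
    (hc1 : c 1) (hc2 : c 2) (hR : RelP (Fintype.card F) α c) :
    Distinct (Fintype.card F) α := by
  classical
  obtain ⟨ρ⟩ := hRHO
  obtain ⟨α', v, Z, S, h1, h2, h3, h4, h5, h6, h7, h8, h9, h10, h11⟩ :=
    hDATA F K hq6 k hk hfin c0 w hw α hα ρ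
  set q := Fintype.card F with hq
  have hq0 : (q : ℂ) ≠ 0 := by
    have : 1 < q := Fintype.one_lt_card
    have : q ≠ 0 := by omega
    exact_mod_cast this
  have hinj : Function.Injective α := by
    intro i j hij
    apply h6
    have : α' i = α' j := Subtype.ext (by rw [h1, h1, hij])
    show ρ (α' i) = ρ (α' j)
    rw [this]
  have hpair : ∀ i, ∃ j, α i * α j = (q : ℂ) ^ 2 := by
    intro i
    obtain ⟨x, hx⟩ := h7 (ρ (α' i))⁻¹ (by
      obtain ⟨hS1, hS2⟩ := (h4 _).1 (h5 i)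
      refine (h4 _).2 ⟨by rw [inv_pow, hS1, inv_one], fun h0 => hS2 ?_⟩
      rw [inv_pow, inv_eq_one] at h0
      exact h0)
    refine ⟨x, ?_⟩
    have h12 := congrArg (Subtype.val : AA → ℂ) ((h9 i x).2 hx)
    push_cast at h12
    rw [← h1, ← h1]
    exact h12
  have hα0 : ∀ i, α i ≠ 0 := by
    intro i h0
    obtain ⟨j, hj⟩ := hpair i
    rw [h0, zero_mul] at hj
    exact pow_ne_zero 2 hq0 hj.symm
  intro N hN
  constructor
  · intro i j hij
    obtain ⟨b, hb⟩ := hpair j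
    obtain ⟨i', j', t, ht, hij'⟩ := hR (i ::ₘ b ::ₘ 0) (Multiset.cons_ne_zero) (by simpa using hc2) N
      hN (by
        simp only [Multiset.map_cons, Multiset.map_zero, Multiset.prod_cons, Multiset.prod_zero,
          mul_one, Multiset.card_cons, Multiset.card_zero, zero_add]
        rw [mul_pow]
        have h12 : α i ^ N = α j ^ N := hij
        rw [h12, ← mul_pow, hb])
    have hcard := congrArg Multiset.card ht
    simp only [Multiset.card_cons, Multiset.card_zero, zero_add] at hcard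
    have ht0 : t = 0 := Multiset.card_eq_zero.1 (by omega)
    have hprod := congrArg (fun s : Multiset (Fin (2 * 3 ^ k)) => (s.map α).prod) ht
    simp only [ht0, Multiset.map_cons, Multiset.map_zero, Multiset.prod_cons, Multiset.prod_zero,
      mul_one] at hprod
    rw [hij', ← hb] at hprod
    exact hinj (mul_right_cancel₀ (hα0 b) hprod)
  · intro i hi
    obtain ⟨i', j', t, ht, -⟩ := hR (i ::ₘ 0) (Multiset.cons_ne_zero) (by simpa using hc1) N
      hN (by simpa using hi)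
    have hcard := congrArg Multiset.card ht
    simp only [Multiset.card_cons, Multiset.card_zero, zero_add] at hcard
    omega

open MAINA in
/-- The bound for the exceptions. -/
theorem mainW (hDATA : Stmt_DATA3) (hFA : Stmt_FA) (hRHO : Stmt_RHO) (hORB : Stmt_ORB2)
    (hFLAB : Stmt_FLAB) (hEX3 : Stmt_EX3) (hMIN : Stmt_MIN) (hRHOP : Stmt_RHOP)
    (hVALJ : Stmt_VALJ) (hVALB : Stmt_VALB) (hBETA : Stmt_BETA) (hMREL : Stmt_MREL)
    (hMODU : Stmt_MODU) (hPSYM : Stmt_PSYM) (hPAR1 : Stmt_PAR1) (hPT : Stmt_PT)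
    (hCNTB : Stmt_CNTB) (hPAR2 : Stmt_PAR2) (hEXT : Stmt_EXT) (hTRL : Stmt_TRL) (F : Type)
    [Field F] [Fintype F] (hq6 : Fintype.card F % 6 = 1) (k : ℕ) (hk : 4 ≤ k) (m : F[X])
    (hm1 : m.Monic) (hm2 : m.natDegree = 3) (j : ℕ) (hj1 : 1 ≤ j) (hj2 : j ≤ k) :
    ((exceptionalW F m k j).ncard : ℝ) ≤
      2 / 3 * (1 / 2) ^ 3 ^ (j - 1) * ((fam F m (3 ^ k)).ncard : ℝ) := by
  classical
  obtain ⟨K, _, _, _, hK⟩ := hEXT F (3 ^ k) (by positivity)
  have hk1 : 1 ≤ k := by omega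
  -- the properties of one surface
  have hbounded : ∀ (c : F) (w : K), NC w → ∀ α : Fin (2 * 3 ^ k) → ℂ,
      IsEig F (mm c) (minpoly F (hc c w)) α → (∀ i, j ≤ i → i ≤ k → ¬ BadAt F k i w) →
      Distinct (Fintype.card F) α ∧
        Good (Fintype.card F) k α fun i => i < 3 ^ (k + 1 - j) := by
    intro c w hw α hα hbad
    have hR := rel3 hDATA hRHO hMREL hMODU hPSYM F K hq6 k hk1 hK c w hw α hα j hj1 hj2 hbad
    have h3j : 3 ≤ 3 ^ (k + 1 - j) := by
      calc 3 = 3 ^ 1 := by norm_num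
        _ ≤ 3 ^ (k + 1 - j) := Nat.pow_le_pow_right (by norm_num) (by omega)
    exact ⟨distinct_of_rel hDATA hRHO F K hq6 k hk1 hK c w hw α hα _ (by show 1 < _; omega)
      (by show 2 < _; omega) hR,
      ymain hDATA hFA hRHO hORB hFLAB F K hq6 k hk1 hK c w hw α hα _
      (fun a b hab hb => lt_of_le_of_lt hab hb) hR⟩
  have hodd : ∀ (c : F) (w : K), NC w → ∀ α : Fin (2 * 3 ^ k) → ℂ,
      IsEig F (mm c) (minpoly F (hc c w)) α → OddSum (Fintype.card F) α →
      (∀ i, 1 ≤ i → i ≤ k → ¬ BadAt F k i w) → Good (Fintype.card F) k α fun _ => True := by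
    intro c w hw α hα ho hbad
    have hR := relD hDATA hMIN hFA hRHO hPSYM F K hq6 k hk1 hK c w hw α hα ho hbad
    exact ymain hDATA hFA hRHO hORB hFLAB F K hq6 k hk1 hK c w hw α hα _
      (fun a b _ _ => trivial) hR
  by_cases hm : m = X ^ 3
  · subst hm
    have h1 := ratio hPAR2 hq6 hk1 hK (0 : F)
      (fun D => ∃ α : Fin (2 * 3 ^ k) → ℂ, IsEig F (X ^ 3) D α ∧
        ¬ (Distinct (Fintype.card F) α ∧ Good (Fintype.card F) k α (fun i => i < 3 ^ (k + 1 - j)) ∧
          (j = 1 → ((X ^ 3 : F[X]) = X ^ 3 ∧ ringChar F % 3 = 1) ∨ OddSum (Fintype.card F) α →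
            Good (Fintype.card F) k α fun _ => True)))
      (2 / 3 * (1 / 2) ^ 3 ^ (j - 1)) ?_
    · rw [mm_zero] at h1
      exact h1
    · refine le_trans (mono_card _ _ ?_) (hCNTB F K hq6 k hk hK j hj1 hj2)
      rintro w ⟨hw, α, hα1, hα2⟩
      rw [hc_zero] at hα1
      refine ⟨hw, ?_⟩
      by_contra h
      push Not at h
      have hαc : IsEig F (mm 0) (minpoly F (hc (0 : F) w)) α := by
        rw [mm_zero, hc_zero]
        exact hα1
      apply hα2
      refine ⟨(hbounded 0 w hw α hαc h).1, (hbounded 0 w hw α hαc h).2, ?_⟩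
      rintro rfl (⟨-, hp⟩ | ho)
      · have hR := relC hEX3 hDATA hMIN hFA hRHO hRHOP hVALJ hVALB hBETA hPSYM hPAR1 hPT hEXT F K
          hq6 hp k hk1 hK w hw α hα1 h
        exact ymain hDATA hFA hRHO hORB hFLAB F K hq6 k hk1 hK 0 w hw α hαc _
          (fun a b _ _ => trivial) hR
      · exact hodd 0 w hw α hαc ho h
  · obtain ⟨c, e, hce⟩ := hTRL F hq6 m hm1 hm2
    obtain ⟨hfam, heig⟩ := hce (3 ^ k) (Nat.one_le_pow _ _ (by norm_num))
    have hfamcard : (fam F m (3 ^ k)).ncard = (fam F (mm c) (3 ^ k)).ncard := by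
      have h := ncard_translate m c e (3 ^ k) (fun _ => True) (fun _ => True) hfam
        (fun _ => Iff.rfl)
      simp only [and_true] at h
      exact h
    rw [hfamcard]
    have hexc : (exceptionalW F m k j).ncard =
        {D | D ∈ fam F (mm c) (3 ^ k) ∧ ∃ α : Fin (2 * 3 ^ k) → ℂ, IsEig F (mm c) D α ∧
          ¬ (Distinct (Fintype.card F) α ∧
            Good (Fintype.card F) k α (fun i => i < 3 ^ (k + 1 - j)) ∧
            (j = 1 → (m = X ^ 3 ∧ ringChar F % 3 = 1) ∨ OddSum (Fintype.card F) α →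
              Good (Fintype.card F) k α fun _ => True))}.ncard := by
      refine ncard_translate m c e (3 ^ k) _ _ hfam fun D => ?_
      simp only [heig]
    rw [hexc]
    refine ratio hPAR2 hq6 hk1 hK c _ _ (le_trans (mono_card _ _ ?_)
      (hCNTB F K hq6 k hk hK j hj1 hj2))
    rintro w ⟨hw, α, hα1, hα2⟩
    refine ⟨hw, ?_⟩
    by_contra h
    push Not at h
    apply hα2
    refine ⟨(hbounded c w hw α hα1 h).1, (hbounded c w hw α hα1 h).2, ?_⟩
    rintro rfl (⟨h0, -⟩ | ho)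
    · exact absurd h0 hm
    · exact hodd c w hw α hα1 ho h

end Pool.Agent.Work.ES
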