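import Pool.Agent.Work.MP_223b32_es.Interface
import Pool.Agent.Work.MP_223b32_tc_helper65.LE

/-!
# MAINB: the second part of the theorem
-/

namespace Pool.Agent.Work.ES

open Finset Polynomial Module Pool.Agent.Work.MP_223b32_ag Pool.Agent.Work.TC
open Pool.Agent.Work.TL (AA Om Stmt_FA)

namespace MAINB

/-- Both families of eigenvalues. -/
noncomputable def al {n : ℕ} (f g : Fin n → ℂ) (i : Fin (2 * n)) : ℂ :=
  Fin.append f g (Fin.cast (two_mul n) i)

lemma al_sum {n : ℕ} (f g : Fin n → ℂ) (h : ℂ → ℂ) :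
    ∑ i, h (al f g i) = ∑ i, h (f i) + ∑ i, h (g i) := by
  unfold al
  rw [← Equiv.sum_comp (finCongr (two_mul n).symm), Fin.sum_univ_add]
  congr 1
  · refine Finset.sum_congr rfl fun i _ => ?_
    congr 1
    exact Fin.append_left f g i
  · refine Finset.sum_congr rfl fun i _ => ?_
    congr 1
    exact Fin.append_right f g i

lemma al_cases {n : ℕ} (f g : Fin n → ℂ) (i : Fin (2 * n)) :
    (∃ j, al f g i = f j) ∨ ∃ j, al f g i = g j := by
  unfold al
  induction Fin.cast (two_mul n) i using Fin.addCases with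
  | left j => exact Or.inl ⟨j, Fin.append_left f g j⟩
  | right j => exact Or.inr ⟨j, Fin.append_right f g j⟩

lemma al_left {n : ℕ} (f g : Fin n → ℂ) (j : Fin n) : ∃ i, al f g i = f j := by
  refine ⟨Fin.cast (two_mul n).symm (Fin.castAdd n j), ?_⟩
  unfold al
  rw [Fin.cast_cast, Fin.cast_eq_self]
  exact Fin.append_left f g j

lemma al_right {n : ℕ} (f g : Fin n → ℂ) (j : Fin n) : ∃ i, al f g i = g j := by
  refine ⟨Fin.cast (two_mul n).symm (Fin.natAdd n j), ?_⟩
  unfold al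
  rw [Fin.cast_cast, Fin.cast_eq_self]
  exact Fin.append_right f g j

lemma irreducible_of_comp {F : Type} [Field F] (D m : F[X]) (hm : m.natDegree = 3)
    (h : Irreducible (D.comp m)) : Irreducible D := by
  have hdeg : ∀ A : F[X], (A.comp m).natDegree = A.natDegree * 3 := fun A => by
    rw [natDegree_comp, hm]
  have hm0 : ∀ A : F[X], A ≠ 0 → IsUnit (A.comp m) → IsUnit A := by
    intro A hA hu
    have h1 := natDegree_eq_zero_of_isUnit hu
    rw [hdeg] at h1
    have h2 : A.natDegree = 0 := by omega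
    rw [eq_C_of_natDegree_eq_zero h2] at hA ⊢
    exact isUnit_C.2 (isUnit_iff_ne_zero.2 fun h0 => hA (by rw [h0, C_0]))
  have hD0 : D ≠ 0 := by
    rintro rfl
    rw [zero_comp] at h
    exact not_irreducible_zero h
  refine ⟨fun hu => h.not_isUnit ?_, fun A B hAB => ?_⟩
  · have h1 := natDegree_eq_zero_of_isUnit hu
    rw [eq_C_of_natDegree_eq_zero h1, C_comp]
    refine isUnit_C.2 (isUnit_iff_ne_zero.2 fun h0 => hD0 ?_)
    rw [eq_C_of_natDegree_eq_zero h1, h0, C_0]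
  · have hA : A ≠ 0 := fun h0 => hD0 (by rw [hAB, h0, zero_mul])
    have hB : B ≠ 0 := fun h0 => hD0 (by rw [hAB, h0, mul_zero])
    rw [hAB, mul_comp] at h
    rcases h.isUnit_or_isUnit rfl with h1 | h1
    · exact Or.inl (hm0 A hA h1)
    · exact Or.inr (hm0 B hB h1)

lemma exists_char (F : Type) [Field F] [Fintype F] (hq6 : Fintype.card F % 6 = 1) :
    ∃ τ : MulChar F ℂ, τ ≠ 1 ∧ τ ^ 3 = 1 := by
  have h3 : 3 ∣ Fintype.card F - 1 := by omega
  obtain ⟨τ, hτ⟩ := MulChar.exists_mulChar_orderOf F h3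
    (Complex.isPrimitiveRoot_exp 3 (by norm_num))
  refine ⟨τ, ?_, ?_⟩
  · rintro rfl
    rw [orderOf_one] at hτ
    omega
  · rw [← hτ]
    exact pow_orderOf_eq_one τ

lemma ringChar_ext {F E : Type} [Field F] [Field E] [Algebra F E] (h : ringChar F ≠ 2) :
    ringChar E ≠ 2 := by
  have h1 : CharP E (ringChar F) :=
    charP_of_injective_algebraMap (algebraMap F E).injective (ringChar F)
  rw [ringChar.eq E (ringChar F)] at *
  exact h

end MAINB

open MAINB in
/-- MAINB. -/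
theorem stmt_MAINB (hEX3 : Stmt_EX3) (hINTP : Stmt_INTP) (hPT : Stmt_PT) (hEXT : Stmt_EXT) :
    Stmt_MAINB := by
  classical
  intro F _ _ hq6 k hk D hD
  obtain ⟨hD1, hD2, hD3⟩ := hD
  have hnodd : Odd (3 ^ k) := Odd.pow (by decide)
  have hn1 : 3 ^ k ≠ 1 := by
    have : 3 ^ 1 ≤ 3 ^ k := Nat.pow_le_pow_right (by norm_num) hk
    omega
  obtain ⟨K, _, _, _, hK⟩ := hEXT F (3 ^ k) (by positivity)
  generalize 3 ^ k = n at *
  have hirr : Irreducible D := irreducible_of_comp D (X ^ 3) (natDegree_X_pow 3) hD3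
  obtain ⟨a, ha⟩ := LE.exists_root (E := K) D hD1 hirr (by rw [hD2, hK])
  have ha0 : a ≠ 0 := by
    rintro rfl
    rw [minpoly.zero] at ha
    rw [← ha, natDegree_X] at hD2
    exact hn1 hD2.symm
  have hF2 : ringChar F ≠ 2 := by
    intro h
    have h1 := FiniteField.even_card_of_char_two h
    omega
  obtain ⟨τ, hτ1, hτ3⟩ := exists_char F hq6
  obtain ⟨β, γ, -, -, hN, hp1, hp2, hjj, hi1, hi2⟩ := hEX3 F K hq6 (by rw [hK]; exact hnodd) a ha0
    (by rw [ha, hD2, hK]) τ hτ1 hτ3 n hK.symm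
  rw [ha] at hN
  set α : Fin (2 * n) → ℂ := al (fun i => jj τ * β i) (fun i => jj τ⁻¹ * γ i) with hα
  have hsum : ∀ (E : Type) [Field E] [Fintype E] [DecidableEq E] [Algebra F E],
      (NN E (X ^ 3 : F[X]) D : ℂ) = ∑ i, α i ^ Module.finrank F E := by
    intro E _ _ _ _
    rw [hN E, hα, al_sum _ _ fun z => z ^ Module.finrank F E]
  refine ⟨α, hINTP (2 * n) α (fun i => ?_) (fun r hr => ?_), fun i => ?_, ?_⟩
  · rcases al_cases (fun i => jj τ * β i) (fun i => jj τ⁻¹ * γ i) i with ⟨j, hj⟩ | ⟨j, hj⟩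
    · rw [hα, hj]; exact hi1 j
    · rw [hα, hj]; exact hi2 j
  · obtain ⟨E, _, _, _, hE⟩ := hEXT F r hr
    refine ⟨NN E (X ^ 3 : F[X]) D, ?_⟩
    rw [hsum E, hE]
  · rcases al_cases (fun i => jj τ * β i) (fun i => jj τ⁻¹ * γ i) i with ⟨j, hj⟩ | ⟨j, hj⟩
    · obtain ⟨l, hl⟩ := hp1 j
      obtain ⟨i', hi'⟩ := al_right (fun i => jj τ * β i) (fun i => jj τ⁻¹ * γ i) l
      refine ⟨i', ?_⟩
      rw [hα, hj, hi']
      linear_combination hjj * (β j * γ l) + (Fintype.card F : ℂ) * hl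
    · obtain ⟨l, hl⟩ := hp2 j
      obtain ⟨i', hi'⟩ := al_left (fun i => jj τ * β i) (fun i => jj τ⁻¹ * γ i) l
      refine ⟨i', ?_⟩
      rw [hα, hj, hi']
      linear_combination hjj * (β l * γ j) + (Fintype.card F : ℂ) * hl
  · intro E _ _ _
    have h1 := hPT F E (ringChar_ext hF2) (X ^ 3 : F[X]) D
    have h2 := congrArg (Int.cast : ℤ → ℂ) h1
    push_cast at h2
    rw [hsum E] at h2
    exact h2

end Pool.Agent.Work.ES
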