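import Pool.Agent.Work.MP_223b32_es_helper28.MAINA

/-!
# MAINC: the third part of the theorem
-/

namespace Pool.Agent.Work.ES

open Finset Polynomial Module Pool.Agent.Work.MP_223b32_ag Pool.Agent.Work.TC
open Pool.Agent.Work.TL (AA Om Stmt_FA)

lemma mm_zero {F : Type} [Field F] : mm (0 : F) = X ^ 3 := by
  unfold mm
  simp

lemma hc_zero {F K : Type} [Field F] [Field K] [Algebra F K] (w : K) : hc (0 : F) w = w := by
  unfold hc
  simp

open MAINA in
/-- MAINC. -/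
theorem stmt_MAINC (hONEC : Stmt_ONEC) (hCNTB : Stmt_CNTB) (hPAR2 : Stmt_PAR2)
    (hEXT : Stmt_EXT) : Stmt_MAINC := by
  classical
  intro F _ _ hq6 hp k hk
  obtain ⟨K, _, _, _, hK⟩ := hEXT F (3 ^ k) (by positivity)
  have hk1 : 1 ≤ k := by omega
  have h1 := ratio hPAR2 hq6 hk1 hK (0 : F)
    (fun D => ∃ α : Fin (2 * 3 ^ k) → ℂ, IsEig F (X ^ 3) D α ∧
      ¬ TateS (Fintype.card F) α fun _ => True) (1 / 3) ?_
  · rw [mm_zero] at h1
    exact h1
  · have h2 := hCNTB F K hq6 k hk hK 1 le_rfl hk1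
    refine le_trans (mono_card _ _ ?_) (h2.trans (le_of_eq (by norm_num)))
    rintro w ⟨hw, α, hα1, hα2⟩
    rw [hc_zero] at hα1
    refine ⟨hw, ?_⟩
    by_contra h
    push Not at h
    exact hα2 (hONEC F K hq6 hp k hk1 hK w hw α hα1 h)

end Pool.Agent.Work.ES
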