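import Pool.Agent.Work.MP_223b32_es.Interface

/-!
# ONE3: the Tate property
-/

namespace Pool.Agent.Work.ES

open Finset Polynomial Module Pool.Agent.Work.MP_223b32_ag Pool.Agent.Work.TC
open Pool.Agent.Work.TL (AA Om Stmt_FA)

namespace ONE3

/-- From `BadAt` to odd exponents. -/
lemma exists_odd (hPSYM : Stmt_PSYM) {F K : Type} [Field F] [Fintype F] [Field K] [Fintype K]
    [DecidableEq K] [Algebra F K] (hq6 : Fintype.card F % 6 = 1) {k : ℕ}
    (hfin : Module.finrank F K = 3 ^ k) {w : K} (hw : w ≠ 0) {i : ℕ} (hi1 : 1 ≤ i) (hik : i ≤ k)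
    (h : ¬ BadAt F k i w) :
    ∃ r : ℕ, Odd r ∧ ¬ 3 ^ k ∣ r ∧ 3 ^ (k - i) ∣ r ∧ ¬ 3 ^ (k - i + 1) ∣ r ∧ ps F w r = 1 := by
  unfold BadAt at h
  push Not at h
  obtain ⟨r, hr0, hr1, hr2, hr3, hr4⟩ := h
  have hps : ∀ r, ps F w r ≠ 0 → ps F w r = 1 := by
    intro r h
    unfold ps at h ⊢
    split_ifs at h ⊢
    · rfl
    · exact absurd rfl h
  have hle : k - i + 1 ≤ k := by omega
  have hnot : ∀ r, ¬ 3 ^ (k - i + 1) ∣ r → ¬ 3 ^ k ∣ r := fun r h h2 =>
    h ((pow_dvd_pow 3 hle).trans h2)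
  rcases Nat.even_or_odd r with he | ho
  · refine ⟨3 ^ (k + 1) - r, ?_, ?_, ?_, ?_, ?_⟩
    · refine Nat.Odd.sub_even hr1.le ?_ he
      exact Odd.pow (by decide)
    · refine hnot _ fun h2 => hr3 ?_
      have h3 : 3 ^ (k - i + 1) ∣ 3 ^ (k + 1) := pow_dvd_pow 3 (by omega)
      have h4 := (Nat.dvd_sub_iff_right hr1.le h3).1 h2
      exact h4
    · exact Nat.dvd_sub (pow_dvd_pow 3 (by omega)) hr2
    · intro h2
      have h3 : 3 ^ (k - i + 1) ∣ 3 ^ (k + 1) := pow_dvd_pow 3 (by omega)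
      exact hr3 ((Nat.dvd_sub_iff_right hr1.le h3).1 h2)
    · have h5 : 3 ^ (k + 1) = 3 * Module.finrank F K := by rw [hfin, pow_succ, mul_comm]
      rw [h5, hPSYM F K hq6 w hw r hr0 (by rw [← h5]; exact hr1)]
      exact hps r hr4
  · exact ⟨r, ho, hnot r hr3, hr2, hr3, hps r hr4⟩

/-- A multiset of values lifts to a multiset of indices. -/
lemma lift {M : ℕ} (f : Fin M → ℂ) (s : Multiset ℂ) (hs : ∀ z ∈ s, ∃ i, z = f i) :
    ∃ t : Multiset (Fin M), s = t.map f := by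
  classical
  induction s using Multiset.induction_on with
  | empty => exact ⟨0, rfl⟩
  | cons a s ih =>
    obtain ⟨t, ht⟩ := ih fun z hz => hs z (Multiset.mem_cons_of_mem hz)
    obtain ⟨i, hi⟩ := hs a (Multiset.mem_cons_self a s)
    exact ⟨i ::ₘ t, by rw [Multiset.map_cons, ← ht, hi]⟩

end ONE3

open ONE3 in
/-- ONE3. -/
theorem stmt_ONE3 (hDATA : Stmt_DATA3) (hRHO : Stmt_RHO) (hMREL : Stmt_MREL) (hMODU : Stmt_MODU)
    (hPSYM : Stmt_PSYM) (hFLAB : Stmt_FLAB) : Stmt_ONE3 := by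
  classical
  intro F K _ _ _ _ _ _ hq6 k hk hfin c w hw α hα j hj hjk hbad
  obtain ⟨ρ⟩ := hRHO
  obtain ⟨α', v, Z, S, h1, h2, h3, h4, h5, h6, h7, h8, h9, -, h11⟩ :=
    hDATA F K hq6 k hk hfin c w hw α hα ρ
  set q := Fintype.card F with hq
  have hq1 : 1 < q := Fintype.one_lt_card
  have hqodd : Odd q := Nat.odd_iff.2 (by omega)
  have hpair : ∀ i, ∃ j, α' i * α' j = (q : AA) ^ 2 := by
    intro i
    obtain ⟨x, hx⟩ := h7 (ρ (α' i))⁻¹ (by
      obtain ⟨hS1, hS2⟩ := (h4 _).1 (h5 i)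
      refine (h4 _).2 ⟨by rw [inv_pow, hS1, inv_one], fun h0 => hS2 ?_⟩
      rw [inv_pow, inv_eq_one] at h0
      exact h0)
    exact ⟨x, (h9 i x).2 hx⟩
  intro N hN H _ _ _ 𝒜 _ φ h r i hi
  have hQ : 1 < q ^ N := Nat.one_lt_pow hN.ne' hq1
  have key := hFLAB H 𝒜 φ h.map_mem h.isSemisimple (q ^ N) hQ (fun z => ∃ i, z = α i ^ N)
    h.eq_of_ne_one h.eigenvalue i ?_ r
  · exact ⟨fun z hz => key.1 hz, key.2⟩
  · intro s hs hs0 hcard hprod
    obtain ⟨t, rfl⟩ := lift (fun i => α i ^ N) s hs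
    rw [Multiset.card_map] at hcard hprod
    have ht0 : t ≠ 0 := fun h0 => hs0 (by rw [h0, Multiset.map_zero])
    have hrel : (t.map fun i => (α' i : ℂ)).prod ^ N = ((q : ℂ) ^ t.card) ^ N := by
      rw [← Multiset.prod_map_pow]
      simp only [h1]
      rw [hprod]
      push_cast
      rw [← pow_mul, ← pow_mul, mul_comm]
    rcases hMREL ρ (3 ^ k) q hqodd (by positivity) (Fin (2 * 3 ^ k)) α' v h2
      (fun i => ((h4 _).1 (h5 i)).2) hpair t ht0 N hN hrel with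
      ⟨i, j, t', ht', hij⟩ | ⟨I, hI, hIcard, hInv, hIsum⟩
    · refine ⟨α i ^ N, α j ^ N, t'.map fun i => α i ^ N, ?_, ?_⟩
      · rw [ht', Multiset.map_cons, Multiset.map_cons]
      · rw [← mul_pow, ← h1, ← h1]
        have hij' := congrArg (Subtype.val : AA → ℂ) hij
        push_cast at hij'
        rw [hij']
        push_cast
        rw [← pow_mul, ← pow_mul, mul_comm]
    · exfalso
      have hIimg : ∑ x ∈ I.image (fun i => ρ (α' i)), aeval x Z = ∑ i ∈ I, ρ (v i) := by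
        rw [Finset.sum_image (fun a _ b _ hab => h6 hab)]
        exact Finset.sum_congr rfl fun i _ => (h3 i).symm
      obtain ⟨l, hl1, hl2, hl3⟩ := hMODU k S h4 Z h8 (I.image fun i => ρ (α' i)) (by
          intro x hx
          obtain ⟨i, _, rfl⟩ := Finset.mem_image.1 hx
          exact h5 i) (hI.image _) (by
          intro x hx hx'
          obtain ⟨i, hi, rfl⟩ := Finset.mem_image.1 hx
          obtain ⟨i', hi', hii⟩ := Finset.mem_image.1 hx'
          exact hInv i hi i' hi' ((h9 i i').2 hii)) (by rw [hIimg]; exact hIsum) j hj hjk (by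
          rw [Finset.card_image_of_injective _ h6]
          exact lt_of_le_of_lt (hIcard.trans hcard) hi)
      obtain ⟨r, hr1, hr2, hr3, hr4, hr5⟩ := exists_odd hPSYM hq6 hfin hw.1 (hj.trans hl1) hl2
        (hbad l hl1 hl2)
      have h12 := h11 r hr1 hr2
      rw [hl3 r hr3 hr4, hr5] at h12
      simp at h12

end Pool.Agent.Work.ES
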