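import Pool.Agent.Work.MP_223b32_es_helper28.ONE3
import Pool.Agent.Work.MP_223b32_es_helper28.MAINB
import Pool.Agent.Work.MP_223b32_es_helper28.MAINC

/-!
# ONEC: no condition on the codimension
-/

namespace Pool.Agent.Work.ES

open Finset Polynomial Module Pool.Agent.Work.MP_223b32_ag Pool.Agent.Work.TC
open Pool.Agent.Work.TL (AA Om Stmt_FA)

namespace ONEC

/-- Equal power sums give equal multiplicities. -/
lemma card_eq {M : ℕ} (f g : Fin M → ℂ) (h : ∀ r : ℕ, 1 ≤ r → ∑ i, f i ^ r = ∑ i, g i ^ r) (z : ℂ) :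
    (univ.filter fun i => f i = z).card = (univ.filter fun i => g i = z).card := by
  classical
  have hli : LinearIndependent ℂ (fun (x : ℂ) => (fun n : Multiplicative ℕ => x ^ n.toAdd)) := by
    have h1 := linearIndependent_monoidHom (Multiplicative ℕ) ℂ
    have h2 : Function.Injective (fun x : ℂ => powersHom ℂ x) := (powersHom ℂ).injective
    exact h1.comp _ h2
  set T : Finset ℂ := univ.image f ∪ univ.image g ∪ {z} with hT
  rw [linearIndependent_iff'] at hli
  have h3 : ∀ (f : Fin M → ℂ), (univ.image f ⊆ T) → ∀ r : ℕ,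
      ∑ i, f i ^ r = ∑ x ∈ T, ((univ.filter fun i => f i = x).card : ℂ) * x ^ r := by
    intro f hf r
    rw [← Finset.sum_fiberwise_of_maps_to (s := univ) (t := T) (g := f)
      (fun i _ => hf (Finset.mem_image_of_mem _ (mem_univ i)))]
    refine Finset.sum_congr rfl fun x _ => ?_
    rw [Finset.sum_congr rfl (g := fun _ => x ^ r) (fun i hi => by
      rw [(Finset.mem_filter.1 hi).2]), Finset.sum_const, nsmul_eq_mul]
  have h4 := hli T (fun x => ((univ.filter fun i => f i = x).card : ℂ) -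
    ((univ.filter fun i => g i = x).card : ℂ)) (by
    funext n
    rw [Finset.sum_apply]
    simp only [Pi.smul_apply, smul_eq_mul, sub_mul, Finset.sum_sub_distrib, Pi.zero_apply]
    rw [← h3 f (by rw [hT]; intro x hx; exact mem_union_left _ (mem_union_left _ hx)) n.toAdd,
      ← h3 g (by rw [hT]; intro x hx; exact mem_union_left _ (mem_union_right _ hx)) n.toAdd]
    rcases Nat.eq_zero_or_pos n.toAdd with h0 | h0
    · rw [h0]; simp
    · rw [h _ h0, sub_self]) z (by rw [hT]; simp)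
  have h5 := sub_eq_zero.1 h4
  exact_mod_cast h5

lemma map_eq {M : ℕ} (f g : Fin M → ℂ) (h : ∀ r : ℕ, 1 ≤ r → ∑ i, f i ^ r = ∑ i, g i ^ r) :
    (univ.val.map f : Multiset ℂ) = univ.val.map g := by
  classical
  ext z
  rw [Multiset.count_map, Multiset.count_map]
  have h1 := card_eq f g h z
  simp only [Finset.card, Finset.filter_val] at h1
  simp only [eq_comm (a := z)]
  exact h1

lemma int_mulChar {F : Type} [Field F] [Fintype F] (ψ : MulChar F ℂ) (u : F) :
    IsIntegral ℤ (ψ u) := by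
  by_cases hu : u = 0
  · rw [hu, MulChar.map_zero]
    exact isIntegral_zero
  · have h1 : ψ u ^ (Fintype.card F - 1) = 1 := by
      rw [← map_pow, FiniteField.pow_card_sub_one_eq_one u hu, map_one]
    exact IsIntegral.of_pow (n := Fintype.card F - 1)
      (by have := Fintype.one_lt_card (α := F); omega) (by rw [h1]; exact isIntegral_one)

lemma int_msumC {F K : Type} [Field F] [Fintype F] [Field K] [Fintype K] [DecidableEq K]
    [Algebra F K] (ψ : MulChar F ℂ) (a : K) (m : ℕ) : IsIntegral ℤ (msumC (XX ψ a) m) := by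
  unfold msumC
  refine IsIntegral.sum _ fun c _ => ?_
  refine IsIntegral.mul ?_ (int_mulChar ψ _)
  exact isIntegral_algebraMap (R := ℤ) (A := ℂ) (x := quadraticChar K (aeval a (mon m c)))

lemma int_jj {F : Type} [Field F] [Fintype F] [DecidableEq F] (τ : MulChar F ℂ) :
    IsIntegral ℤ (jj τ) := by
  unfold jj
  refine IsIntegral.mul (IsIntegral.neg ?_) (int_msumC τ 1 1)
  exact isIntegral_algebraMap (R := ℤ) (A := ℂ) (x := quadraticChar F (-1))

/-- The product of the roots. -/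
lemma prod_beta {n : ℕ} (b : ℕ → ℂ) (β : Fin n → ℂ)
    (h : ∏ i, (X - C (β i)) = ∑ m ∈ range (n + 1), C (b m) * X ^ (n - m)) :
    (∏ i, β i) ^ 2 = b n ^ 2 := by
  have h1 := congrArg (fun P => P.eval 0) h
  simp only [eval_prod, eval_sub, eval_X, eval_C, zero_sub, eval_finsetSum, eval_mul, eval_pow] at h1
  rw [Finset.sum_range_succ, Finset.sum_eq_zero (fun m hm => by
    rw [zero_pow (by have := mem_range.1 hm; omega), mul_zero]), Nat.sub_self, pow_zero, mul_one,
    zero_add] at h1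
  rw [← h1, ← Finset.prod_pow, ← Finset.prod_pow]
  exact Finset.prod_congr rfl fun i _ => by ring

/-- A relation for the product of the eigenvalues of one half gives a relation with the Jacobi sum. -/
lemma rel {n N q : ℕ} {b : ℂ} {x y : ℂ} (β : Fin n → ℂ) (hq : x * y = q) (hq0 : (q : ℂ) ≠ 0)
    (hb : (∏ i, β i) ^ 2 = b ^ 2) (h : (∏ i, (x * β i / q)) ^ N = 1) :
    b ^ (2 * N) = y ^ (2 * n * N) := by
  have hx0 : x ≠ 0 := by
    rintro rfl
    rw [zero_mul] at hq
    exact hq0 hq.symm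
  have h1 : ∏ i, (x * β i / (q : ℂ)) = x ^ n * (∏ i, β i) / (q : ℂ) ^ n := by
    rw [Finset.prod_div_distrib, Finset.prod_mul_distrib, Finset.prod_const, Finset.prod_const,
      Finset.card_univ, Fintype.card_fin]
  rw [h1, div_pow, div_eq_one_iff_eq (pow_ne_zero _ (pow_ne_zero _ hq0))] at h
  have h2 := congrArg (fun z => z ^ 2) h
  beta_reduce at h2
  rw [← hq] at h2
  have h3 : ((x ^ n * ∏ i, β i) ^ N) ^ 2 = x ^ (2 * n * N) * b ^ (2 * N) := by
    calc ((x ^ n * ∏ i, β i) ^ N) ^ 2 = x ^ (2 * n * N) * ((∏ i, β i) ^ 2) ^ N := by ring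
      _ = x ^ (2 * n * N) * b ^ (2 * N) := by rw [hb]; ring
  have h4 : (((x * y) ^ n) ^ N) ^ 2 = x ^ (2 * n * N) * y ^ (2 * n * N) := by ring
  rw [h3, h4] at h2
  exact mul_left_cancel₀ (pow_ne_zero _ hx0) h2

/-- The eigenvalues with given reduction. -/
lemma prod_half {M : ℕ} {n : ℕ} (ρ : AA →+* Om) (α : Fin M → ℂ) (α' : Fin M → AA)
    (h1 : ∀ i, (α' i : ℂ) = α i) (f g : Fin n → ℂ)
    (hmap : (univ.val.map α : Multiset ℂ) = univ.val.map f + univ.val.map g) (ϖ : Om) (e : ℕ)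
    (hf : ∀ i, IsIntegral ℤ (f i)) 
    (hf' : ∀ i, ∀ x : AA, (x : ℂ) = f i → ρ x ^ e = ϖ)
    (hg' : ∀ i, ∀ x : AA, (x : ℂ) = g i → ρ x ^ e ≠ ϖ) (q : ℂ) [DecidablePred fun i => ρ (α' i) ^ e = ϖ] :
    ∏ i ∈ univ.filter (fun i => ρ (α' i) ^ e = ϖ), ((α' i : ℂ) / q) = ∏ i, (f i / q) := by
  classical
  set p : ℂ → Prop := fun z => ∃ x : AA, (x : ℂ) = z ∧ ρ x ^ e = ϖ with hp
  have h2 : (univ.val.map α : Multiset ℂ).filter p = univ.val.map f := by
    rw [hmap, Multiset.filter_add]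
    have h3 : (univ.val.map f : Multiset ℂ).filter p = univ.val.map f := by
      rw [Multiset.filter_eq_self]
      intro z hz
      obtain ⟨i, _, rfl⟩ := Multiset.mem_map.1 hz
      exact ⟨⟨f i, hf i⟩, rfl, hf' i _ rfl⟩
    have h4 : (univ.val.map g : Multiset ℂ).filter p = 0 := by
      rw [Multiset.filter_eq_nil]
      intro z hz
      obtain ⟨i, _, rfl⟩ := Multiset.mem_map.1 hz
      rintro ⟨x, hx, hx'⟩
      exact hg' i x hx hx'
    rw [h3, h4, add_zero]
  have h5 : (univ.val.map α : Multiset ℂ).filter p =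
      (univ.filter (fun i => ρ (α' i) ^ e = ϖ)).val.map α := by
    rw [Multiset.filter_map, Finset.filter_val]
    congr 1
    refine Multiset.filter_congr fun i _ => ?_
    simp only [Function.comp, hp]
    constructor
    · rintro ⟨x, hx, hx'⟩
      rw [← h1 i] at hx
      rw [← Subtype.val_injective hx]
      exact hx'
    · intro h
      exact ⟨α' i, h1 i, h⟩
  have h6 : ((univ.filter (fun i => ρ (α' i) ^ e = ϖ)).val.map fun i => α i / q).prod =
      (univ.val.map fun i => f i / q).prod := by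
    have h7 := congrArg (fun s => (Multiset.map (fun z => z / q) s).prod) (h5.symm.trans h2)
    simp only [Multiset.map_map, Function.comp_def] at h7
    exact h7
  simp only [h1]
  exact h6

end ONEC

open ONEC MAINB ONE3 in
/-- ONEC. -/
theorem stmt_ONEC (hEX3 : Stmt_EX3) (hDATA : Stmt_DATA3) (hMIN : Stmt_MIN) (hFA : Stmt_FA)
    (hRHO : Stmt_RHO) (hRHOP : Stmt_RHOP) (hVALJ : Stmt_VALJ) (hVALB : Stmt_VALB)
    (hBETA : Stmt_BETA) (hPSYM : Stmt_PSYM) (hFLAB : Stmt_FLAB) (hPAR1 : Stmt_PAR1)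
    (hPT : Stmt_PT) (hEXT : Stmt_EXT) : Stmt_ONEC := by
  classical
  intro F K _ _ _ _ _ _ hq6 hp3 k hk hfin w hw α hα hbad
  obtain ⟨ρ⟩ := hRHO
  obtain ⟨σ, hσ⟩ := hFA ρ
  have hF2 : ringChar F ≠ 2 := by
    intro h
    have h1 := FiniteField.even_card_of_char_two h
    omega
  have hdeg : (minpoly F w).natDegree = 3 ^ k := by
    have h1 := (hPAR1 F K hq6 k hk hfin 0 w hw).1
    rw [hc_zero] at h1
    exact h1
  have hαc : IsEig F (mm 0) (minpoly F (hc (0 : F) w)) α := by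
    rw [mm_zero, hc_zero]
    exact hα
  obtain ⟨α', v, Z, S, h1, h2, h3, h4, h5, h6, h7, h8, h9, h10, h11⟩ :=
    hDATA F K hq6 k hk hfin 0 w hw α hαc ρ
  set q := Fintype.card F with hq
  have hq1 : 1 < q := Fintype.one_lt_card
  have hq0 : (q : ℂ) ≠ 0 := by
    have : q ≠ 0 := by omega
    exact_mod_cast this
  have hqodd : Odd q := Nat.odd_iff.2 (by omega)
  have hnodd : Odd (3 ^ k) := Odd.pow (by decide)
  have hn2 : 2 ≤ 3 ^ k := by
    have : 3 ^ 1 ≤ 3 ^ k := Nat.pow_le_pow_right (by norm_num) hk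
    omega
  -- the other description of the eigenvalues
  obtain ⟨τ, hτ1, hτ3⟩ := exists_char F hq6
  have hτ1' : τ⁻¹ ≠ 1 := inv_ne_one.2 hτ1
  have hτ3' : τ⁻¹ ^ 3 = 1 := by rw [inv_pow, hτ3, inv_one]
  obtain ⟨β, γ, hβ, hγ, hN, -, -, hjj, hi1, hi2⟩ := hEX3 F K hq6 (by rw [hfin]; exact hnodd) w hw.1
    (by rw [hdeg, hfin]) τ hτ1 hτ3 (3 ^ k) hfin.symm
  obtain ⟨ϖ, hϖ3, hϖ1, hϖ⟩ := hBETA F K hq6 k hk hfin w hw hdeg τ hτ1 hτ3 ρ
  obtain ⟨ϖ', hϖ3', hϖ1', hϖ'⟩ := hBETA F K hq6 k hk hfin w hw hdeg τ⁻¹ hτ1' hτ3' ρ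
  have hf := hϖ β hβ
  have hg := hϖ' γ hγ
  have hpow : ∀ r : ℕ, 1 ≤ r → ∑ i, α i ^ r =
      ∑ i, al (fun i => jj τ * β i) (fun i => jj τ⁻¹ * γ i) i ^ r := by
    intro r hr
    obtain ⟨E, _, _, _, hE⟩ := hEXT F r hr
    have h12 := hN E
    rw [← al_sum (fun i => jj τ * β i) (fun i => jj τ⁻¹ * γ i)
      fun z => z ^ Module.finrank F E, hE] at h12
    rw [← h12]
    have h13 := hα.frob E
    have h14 := congrArg (Int.cast : ℤ → ℂ) (hPT F E (ringChar_ext hF2) (X ^ 3 : F[X]) (minpoly F w))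
    push_cast at h14
    rw [h14, hE] at h13
    exact (add_left_cancel h13).symm
  have hmap : (univ.val.map α : Multiset ℂ) =
      univ.val.map (fun i => jj τ * β i) + univ.val.map (fun i => jj τ⁻¹ * γ i) := by
    rw [map_eq _ _ hpow]
    ext z
    rw [Multiset.count_add]
    have h12 := al_sum (fun i => jj τ * β i) (fun i => jj τ⁻¹ * γ i)
      fun x => if z = x then (1 : ℂ) else 0
    have h13 : ∀ {M : ℕ} (f : Fin M → ℂ), (∑ i, (if z = f i then (1 : ℂ) else 0)) =
        (Multiset.count z (univ.val.map f) : ℂ) := by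
      intro M f
      rw [Multiset.count_map, Finset.sum_boole]
      rfl
    rw [h13, h13, h13] at h12
    exact_mod_cast h12
  have hϖϖ : ϖ ≠ ϖ' := by
    intro he
    -- all eigenvalues would have the same reduction
    have hall : ∀ i, ρ (α' i) ^ 3 ^ k = ϖ := by
      intro i
      have h12 : α i ∈ (univ.val.map α : Multiset ℂ) := Multiset.mem_map_of_mem _ (mem_univ i)
      rw [hmap, Multiset.mem_add] at h12
      rcases h12 with h12 | h12
      · obtain ⟨j, _, hj⟩ := Multiset.mem_map.1 h12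
        exact hf j (α' i) (by rw [h1, ← hj])
      · obtain ⟨j, _, hj⟩ := Multiset.mem_map.1 h12
        rw [he]
        exact hg j (α' i) (by rw [h1, ← hj])
    have hne : Nonempty (Fin (2 * 3 ^ k)) := ⟨⟨0, by omega⟩⟩
    obtain ⟨i⟩ := hne
    obtain ⟨j, hj⟩ := h7 (ρ (α' i))⁻¹ (by
      obtain ⟨hS1, hS2⟩ := (h4 _).1 (h5 i)
      refine (h4 _).2 ⟨by rw [inv_pow, hS1, inv_one], fun h0 => hS2 ?_⟩
      rw [inv_pow, inv_eq_one] at h0
      exact h0)
    have h12 := hall j
    rw [hj, inv_pow, hall i] at h12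
    have hϖ0 : ϖ ≠ 0 := by
      rintro rfl
      norm_num at hϖ3
    have h13 : ϖ * ϖ = 1 := by
      nth_rewrite 1 [← h12]
      exact inv_mul_cancel₀ hϖ0
    apply hϖ1
    have h14 : ϖ ^ 3 = ϖ * ϖ * ϖ := by ring
    rw [h14, h13, one_mul] at hϖ3
    exact hϖ3
  -- p-adic part
  have hfact : Fact (ringChar F).Prime := ⟨CharP.char_is_prime F (ringChar F)⟩
  obtain ⟨π⟩ := hRHOP (ringChar F)
  have hfalse : ∀ N : ℕ, 0 < N → (∀ ϖ : Om, ϖ ^ 3 = 1 → ϖ ≠ 1 →
      (∏ i ∈ univ.filter (fun i => ρ (α' i) ^ 3 ^ k = ϖ), ((α' i : ℂ) / q)) ^ N = 1) → False := by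
    intro N hN0 hrel
    have hA := hrel ϖ hϖ3 hϖ1
    rw [prod_half ρ α α' h1 (fun i => jj τ * β i) (fun i => jj τ⁻¹ * γ i) hmap ϖ (3 ^ k) hi1
      (fun i x hx => hf i x hx) (fun i x hx => by rw [hg i x hx]; exact hϖϖ.symm)] at hA
    have hB := hrel ϖ' hϖ3' hϖ1'
    rw [prod_half ρ α α' h1 (fun i => jj τ⁻¹ * γ i) (fun i => jj τ * β i)
      (by rw [hmap, add_comm]) ϖ' (3 ^ k) hi2
      (fun i x hx => hg i x hx) (fun i x hx => by rw [hf i x hx]; exact hϖϖ)] at hB
    have hA' := rel β hjj hq0 (prod_beta _ β hβ) hA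
    have hB' := rel γ (by rw [mul_comm]; exact hjj) hq0 (prod_beta _ γ hγ) hB
    set x : AA := ⟨jj τ, int_jj τ⟩ with hx
    set y : AA := ⟨jj τ⁻¹, int_jj τ⁻¹⟩ with hy
    set b : AA := ⟨msumC (XX (qc F * τ) w) (3 ^ k), int_msumC _ _ _⟩ with hb
    set b' : AA := ⟨msumC (XX (qc F * τ⁻¹) w) (3 ^ k), int_msumC _ _ _⟩ with hb'
    have h12 : π b = 0 := hVALB F K (ringChar F) hq6 (by rw [hfin]; exact hnodd)
      (by rw [hfin]; exact hn2) w hw.1 (by rw [hdeg, hfin]) τ hτ1 hτ3 π b (by rw [hfin])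
    have h13 : π b' = 0 := hVALB F K (ringChar F) hq6 (by rw [hfin]; exact hnodd)
      (by rw [hfin]; exact hn2) w hw.1 (by rw [hdeg, hfin]) τ⁻¹ hτ1' hτ3' π b' (by rw [hfin])
    have h14 : b ^ (2 * N) = y ^ (2 * 3 ^ k * N) := by
      apply Subtype.val_injective
      push_cast
      exact hA'
    have h15 : b' ^ (2 * N) = x ^ (2 * 3 ^ k * N) := by
      apply Subtype.val_injective
      push_cast
      exact hB'
    have h16 : π y = 0 := by
      have h17 := congrArg π h14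
      rw [map_pow, map_pow, h12, zero_pow (by omega)] at h17
      exact (pow_eq_zero_iff (by positivity)).1 h17.symm
    have h17 : π x = 0 := by
      have h18 := congrArg π h15
      rw [map_pow, map_pow, h13, zero_pow (by omega)] at h18
      exact (pow_eq_zero_iff (by positivity)).1 h18.symm
    rcases hVALJ F (ringChar F) hq6 hp3 τ hτ1 hτ3 π x y rfl rfl with h18 | h18
    · exact h18 h17
    · exact h18 h16
  -- the Tate property
  intro N hN0 H _ _ _ 𝒜 _ φ h r i _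
  have hQ : 1 < q ^ N := Nat.one_lt_pow hN0.ne' hq1
  have key := hFLAB H 𝒜 φ h.map_mem h.isSemisimple (q ^ N) hQ (fun z => ∃ i, z = α i ^ N)
    h.eq_of_ne_one h.eigenvalue i ?_ r
  · exact ⟨fun z hz => key.1 hz, key.2⟩
  · intro s hs hs0 hcard hprod
    obtain ⟨t, rfl⟩ := lift (fun i => α i ^ N) s hs
    rw [Multiset.card_map] at hcard hprod
    have ht0 : t ≠ 0 := fun h0 => hs0 (by rw [h0, Multiset.map_zero])
    have hrel : (t.map fun i => (α' i : ℂ)).prod ^ N = ((q : ℂ) ^ t.card) ^ N := by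
      rw [← Multiset.prod_map_pow]
      simp only [h1]
      rw [hprod]
      push_cast
      rw [← pow_mul, ← pow_mul, mul_comm]
    rcases hMIN ρ σ hσ k q hk hqodd α' v Z S h2 h3 h4 h5 h6 h7 h8 h9 h10 (fun l hl1 hl2 => by
        obtain ⟨r, hr1, hr2, hr3, hr4, hr5⟩ := exists_odd hPSYM hq6 hfin hw.1 hl1 hl2
          (hbad l hl1 hl2)
        refine ⟨r, hr3, hr4, ?_⟩
        rw [h11 r hr1 hr2, hr5]
        simp) t ht0 N hN0 hrel with ⟨i, j, t', ht', hij⟩ | ⟨N', hN', hrel'⟩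
    · refine ⟨α i ^ N, α j ^ N, t'.map fun i => α i ^ N, ?_, ?_⟩
      · rw [ht', Multiset.map_cons, Multiset.map_cons]
      · rw [← mul_pow, ← h1, ← h1]
        have hij' := congrArg (Subtype.val : AA → ℂ) hij
        push_cast at hij'
        rw [hij']
        push_cast
        rw [← pow_mul, ← pow_mul, mul_comm]
    · exact (hfalse N' hN' hrel').elim

end Pool.Agent.Work.ES
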