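import Pool.Agent.Work.MP_223b32_es_helper28.ONEC
import Pool.Agent.Work.MP_223b32_es.DefsY

/-!
# The multiplicative relations between the eigenvalues
-/

namespace Pool.Agent.Work.ES

open Finset Polynomial Module Pool.Agent.Work.MP_223b32_ag Pool.Agent.Work.TC
open Pool.Agent.Work.TL (AA Om Stmt_FA)

/-- Every multiplicative relation, of a length allowed by `c`, contains a pair. -/
def RelP (q : ℕ) {M : ℕ} (α : Fin M → ℂ) (c : ℕ → Prop) : Prop :=
  ∀ s : Multiset (Fin M), s ≠ 0 → c s.card → ∀ N : ℕ, 0 < N →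
    (s.map α).prod ^ N = ((q : ℂ) ^ s.card) ^ N →
      ∃ i j t, s = i ::ₘ j ::ₘ t ∧ α i * α j = (q : ℂ) ^ 2

open ONE3 in
/-- The relations of bounded length. -/
theorem rel3 (hDATA : Stmt_DATA3) (hRHO : Stmt_RHO) (hMREL : Stmt_MREL) (hMODU : Stmt_MODU)
    (hPSYM : Stmt_PSYM) (F K : Type) [Field F] [Fintype F] [Field K] [Fintype K] [DecidableEq K]
    [Algebra F K] (hq6 : Fintype.card F % 6 = 1) (k : ℕ) (hk : 1 ≤ k)
    (hfin : Module.finrank F K = 3 ^ k) (c : F) (w : K) (hw : NC w) (α : Fin (2 * 3 ^ k) → ℂ)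
    (hα : IsEig F (mm c) (minpoly F (hc c w)) α) (j : ℕ) (hj : 1 ≤ j) (hjk : j ≤ k)
    (hbad : ∀ i, j ≤ i → i ≤ k → ¬ BadAt F k i w) :
    RelP (Fintype.card F) α fun i => i < 3 ^ (k + 1 - j) := by
  classical
  obtain ⟨ρ⟩ := hRHO
  obtain ⟨α', v, Z, S, h1, h2, h3, h4, h5, h6, h7, h8, h9, -, h11⟩ :=
    hDATA F K hq6 k hk hfin c w hw α hα ρ
  set q := Fintype.card F with hq
  have hq1 : 1 < q := Fintype.one_lt_card
  have hqodd : Odd q := Nat.odd_iff.2 (by omega)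
  have hpair : ∀ i, ∃ j, α' i * α' j = (q : AA) ^ 2 := by
    intro i
    obtain ⟨x, hx⟩ := h7 (ρ (α' i))⁻¹ (by
      obtain ⟨hS1, hS2⟩ := (h4 _).1 (h5 i)
      refine (h4 _).2 ⟨by rw [inv_pow, hS1, inv_one], fun h0 => hS2 ?_⟩
      rw [inv_pow, inv_eq_one] at h0
      exact h0)
    exact ⟨x, (h9 i x).2 hx⟩
  intro t ht0 hcard N hN hprod
  have hi : t.card < 3 ^ (k + 1 - j) := hcard
  have hrel : (t.map fun i => (α' i : ℂ)).prod ^ N = ((q : ℂ) ^ t.card) ^ N := by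
    simp only [h1]
    exact hprod
  rcases hMREL ρ (3 ^ k) q hqodd (by positivity) (Fin (2 * 3 ^ k)) α' v h2
      (fun i => ((h4 _).1 (h5 i)).2) hpair t ht0 N hN hrel with
      ⟨i, j, t', ht', hij⟩ | ⟨I, hI, hIcard, hInv, hIsum⟩
  · refine ⟨i, j, t', ht', ?_⟩
    rw [← h1, ← h1]
    have hij' := congrArg (Subtype.val : AA → ℂ) hij
    push_cast at hij'
    exact hij'
  · exfalso
    have hIimg : ∑ x ∈ I.image (fun i => ρ (α' i)), aeval x Z = ∑ i ∈ I, ρ (v i) := by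
      rw [Finset.sum_image (fun a _ b _ hab => h6 hab)]
      exact Finset.sum_congr rfl fun i _ => (h3 i).symm
    obtain ⟨l, hl1, hl2, hl3⟩ := hMODU k S h4 Z h8 (I.image fun i => ρ (α' i)) (by
        intro x hx
        obtain ⟨i, _, rfl⟩ := Finset.mem_image.1 hx
        exact h5 i) (hI.image _) (by
        intro x hx hx'
        obtain ⟨i, hi, rfl⟩ := Finset.mem_image.1 hx
        obtain ⟨i', hi', hii⟩ := Finset.mem_image.1 hx'
        exact hInv i hi i' hi' ((h9 i i').2 hii)) (by rw [hIimg]; exact hIsum) j hj hjk (by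
        rw [Finset.card_image_of_injective _ h6]
        exact lt_of_le_of_lt hIcard hi)
    obtain ⟨r, hr1, hr2, hr3, hr4, hr5⟩ := exists_odd hPSYM hq6 hfin hw.1 (hj.trans hl1) hl2
      (hbad l hl1 hl2)
    have h12 := h11 r hr1 hr2
    rw [hl3 r hr3 hr4, hr5] at h12
    simp at h12


open ONEC MAINB ONE3 in
/-- The relations of any length, for `m = X ^ 3`. -/
theorem relC (hEX3 : Stmt_EX3) (hDATA : Stmt_DATA3) (hMIN : Stmt_MIN) (hFA : Stmt_FA)
    (hRHO : Stmt_RHO) (hRHOP : Stmt_RHOP) (hVALJ : Stmt_VALJ) (hVALB : Stmt_VALB)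
    (hBETA : Stmt_BETA) (hPSYM : Stmt_PSYM) (hPAR1 : Stmt_PAR1)
    (hPT : Stmt_PT) (hEXT : Stmt_EXT) (F K : Type) [Field F] [Fintype F] [Field K] [Fintype K]
    [DecidableEq K] [Algebra F K] (hq6 : Fintype.card F % 6 = 1) (hp3 : ringChar F % 3 = 1)
    (k : ℕ) (hk : 1 ≤ k) (hfin : Module.finrank F K = 3 ^ k) (w : K) (hw : NC w)
    (α : Fin (2 * 3 ^ k) → ℂ) (hα : IsEig F (X ^ 3) (minpoly F w) α)
    (hbad : ∀ i, 1 ≤ i → i ≤ k → ¬ BadAt F k i w) :
    RelP (Fintype.card F) α fun _ => True := by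
  classical
  obtain ⟨ρ⟩ := hRHO
  obtain ⟨σ, hσ⟩ := hFA ρ
  have hF2 : ringChar F ≠ 2 := by
    intro h
    have h1 := FiniteField.even_card_of_char_two h
    omega
  have hdeg : (minpoly F w).natDegree = 3 ^ k := by
    have h1 := (hPAR1 F K hq6 k hk hfin 0 w hw).1
    rw [hc_zero] at h1
    exact h1
  have hαc : IsEig F (mm 0) (minpoly F (hc (0 : F) w)) α := by
    rw [mm_zero, hc_zero]
    exact hα
  obtain ⟨α', v, Z, S, h1, h2, h3, h4, h5, h6, h7, h8, h9, h10, h11⟩ :=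
    hDATA F K hq6 k hk hfin 0 w hw α hαc ρ
  set q := Fintype.card F with hq
  have hq1 : 1 < q := Fintype.one_lt_card
  have hq0 : (q : ℂ) ≠ 0 := by
    have : q ≠ 0 := by omega
    exact_mod_cast this
  have hqodd : Odd q := Nat.odd_iff.2 (by omega)
  have hnodd : Odd (3 ^ k) := Odd.pow (by decide)
  have hn2 : 2 ≤ 3 ^ k := by
    have : 3 ^ 1 ≤ 3 ^ k := Nat.pow_le_pow_right (by norm_num) hk
    omega
  -- the other description of the eigenvalues
  obtain ⟨τ, hτ1, hτ3⟩ := exists_char F hq6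
  have hτ1' : τ⁻¹ ≠ 1 := inv_ne_one.2 hτ1
  have hτ3' : τ⁻¹ ^ 3 = 1 := by rw [inv_pow, hτ3, inv_one]
  obtain ⟨β, γ, hβ, hγ, hN, -, -, hjj, hi1, hi2⟩ := hEX3 F K hq6 (by rw [hfin]; exact hnodd) w hw.1
    (by rw [hdeg, hfin]) τ hτ1 hτ3 (3 ^ k) hfin.symm
  obtain ⟨ϖ, hϖ3, hϖ1, hϖ⟩ := hBETA F K hq6 k hk hfin w hw hdeg τ hτ1 hτ3 ρ
  obtain ⟨ϖ', hϖ3', hϖ1', hϖ'⟩ := hBETA F K hq6 k hk hfin w hw hdeg τ⁻¹ hτ1' hτ3' ρ
  have hf := hϖ β hβ
  have hg := hϖ' γ hγ
  have hpow : ∀ r : ℕ, 1 ≤ r → ∑ i, α i ^ r =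
      ∑ i, al (fun i => jj τ * β i) (fun i => jj τ⁻¹ * γ i) i ^ r := by
    intro r hr
    obtain ⟨E, _, _, _, hE⟩ := hEXT F r hr
    have h12 := hN E
    rw [← al_sum (fun i => jj τ * β i) (fun i => jj τ⁻¹ * γ i)
      fun z => z ^ Module.finrank F E, hE] at h12
    rw [← h12]
    have h13 := hα.frob E
    have h14 := congrArg (Int.cast : ℤ → ℂ) (hPT F E (ringChar_ext hF2) (X ^ 3 : F[X]) (minpoly F w))
    push_cast at h14
    rw [h14, hE] at h13
    exact (add_left_cancel h13).symm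
  have hmap : (univ.val.map α : Multiset ℂ) =
      univ.val.map (fun i => jj τ * β i) + univ.val.map (fun i => jj τ⁻¹ * γ i) := by
    rw [map_eq _ _ hpow]
    ext z
    rw [Multiset.count_add]
    have h12 := al_sum (fun i => jj τ * β i) (fun i => jj τ⁻¹ * γ i)
      fun x => if z = x then (1 : ℂ) else 0
    have h13 : ∀ {M : ℕ} (f : Fin M → ℂ), (∑ i, (if z = f i then (1 : ℂ) else 0)) =
        (Multiset.count z (univ.val.map f) : ℂ) := by
      intro M f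
      rw [Multiset.count_map, Finset.sum_boole]
      rfl
    rw [h13, h13, h13] at h12
    exact_mod_cast h12
  have hϖϖ : ϖ ≠ ϖ' := by
    intro he
    -- all eigenvalues would have the same reduction
    have hall : ∀ i, ρ (α' i) ^ 3 ^ k = ϖ := by
      intro i
      have h12 : α i ∈ (univ.val.map α : Multiset ℂ) := Multiset.mem_map_of_mem _ (mem_univ i)
      rw [hmap, Multiset.mem_add] at h12
      rcases h12 with h12 | h12
      · obtain ⟨j, _, hj⟩ := Multiset.mem_map.1 h12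
        exact hf j (α' i) (by rw [h1, ← hj])
      · obtain ⟨j, _, hj⟩ := Multiset.mem_map.1 h12
        rw [he]
        exact hg j (α' i) (by rw [h1, ← hj])
    have hne : Nonempty (Fin (2 * 3 ^ k)) := ⟨⟨0, by omega⟩⟩
    obtain ⟨i⟩ := hne
    obtain ⟨j, hj⟩ := h7 (ρ (α' i))⁻¹ (by
      obtain ⟨hS1, hS2⟩ := (h4 _).1 (h5 i)
      refine (h4 _).2 ⟨by rw [inv_pow, hS1, inv_one], fun h0 => hS2 ?_⟩
      rw [inv_pow, inv_eq_one] at h0
      exact h0)
    have h12 := hall j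
    rw [hj, inv_pow, hall i] at h12
    have hϖ0 : ϖ ≠ 0 := by
      rintro rfl
      norm_num at hϖ3
    have h13 : ϖ * ϖ = 1 := by
      nth_rewrite 1 [← h12]
      exact inv_mul_cancel₀ hϖ0
    apply hϖ1
    have h14 : ϖ ^ 3 = ϖ * ϖ * ϖ := by ring
    rw [h14, h13, one_mul] at hϖ3
    exact hϖ3
  -- p-adic part
  have hfact : Fact (ringChar F).Prime := ⟨CharP.char_is_prime F (ringChar F)⟩
  obtain ⟨π⟩ := hRHOP (ringChar F)
  have hfalse : ∀ N : ℕ, 0 < N → (∀ ϖ : Om, ϖ ^ 3 = 1 → ϖ ≠ 1 →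
      (∏ i ∈ univ.filter (fun i => ρ (α' i) ^ 3 ^ k = ϖ), ((α' i : ℂ) / q)) ^ N = 1) → False := by
    intro N hN0 hrel
    have hA := hrel ϖ hϖ3 hϖ1
    rw [prod_half ρ α α' h1 (fun i => jj τ * β i) (fun i => jj τ⁻¹ * γ i) hmap ϖ (3 ^ k) hi1
      (fun i x hx => hf i x hx) (fun i x hx => by rw [hg i x hx]; exact hϖϖ.symm)] at hA
    have hB := hrel ϖ' hϖ3' hϖ1'
    rw [prod_half ρ α α' h1 (fun i => jj τ⁻¹ * γ i) (fun i => jj τ * β i)
      (by rw [hmap, add_comm]) ϖ' (3 ^ k) hi2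
      (fun i x hx => hg i x hx) (fun i x hx => by rw [hf i x hx]; exact hϖϖ)] at hB
    have hA' := rel β hjj hq0 (prod_beta _ β hβ) hA
    have hB' := rel γ (by rw [mul_comm]; exact hjj) hq0 (prod_beta _ γ hγ) hB
    set x : AA := ⟨jj τ, int_jj τ⟩ with hx
    set y : AA := ⟨jj τ⁻¹, int_jj τ⁻¹⟩ with hy
    set b : AA := ⟨msumC (XX (qc F * τ) w) (3 ^ k), int_msumC _ _ _⟩ with hb
    set b' : AA := ⟨msumC (XX (qc F * τ⁻¹) w) (3 ^ k), int_msumC _ _ _⟩ with hb'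
    have h12 : π b = 0 := hVALB F K (ringChar F) hq6 (by rw [hfin]; exact hnodd)
      (by rw [hfin]; exact hn2) w hw.1 (by rw [hdeg, hfin]) τ hτ1 hτ3 π b (by rw [hfin])
    have h13 : π b' = 0 := hVALB F K (ringChar F) hq6 (by rw [hfin]; exact hnodd)
      (by rw [hfin]; exact hn2) w hw.1 (by rw [hdeg, hfin]) τ⁻¹ hτ1' hτ3' π b' (by rw [hfin])
    have h14 : b ^ (2 * N) = y ^ (2 * 3 ^ k * N) := by
      apply Subtype.val_injective
      push_cast
      exact hA'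
    have h15 : b' ^ (2 * N) = x ^ (2 * 3 ^ k * N) := by
      apply Subtype.val_injective
      push_cast
      exact hB'
    have h16 : π y = 0 := by
      have h17 := congrArg π h14
      rw [map_pow, map_pow, h12, zero_pow (by omega)] at h17
      exact (pow_eq_zero_iff (by positivity)).1 h17.symm
    have h17 : π x = 0 := by
      have h18 := congrArg π h15
      rw [map_pow, map_pow, h13, zero_pow (by omega)] at h18
      exact (pow_eq_zero_iff (by positivity)).1 h18.symm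
    rcases hVALJ F (ringChar F) hq6 hp3 τ hτ1 hτ3 π x y rfl rfl with h18 | h18
    · exact h18 h17
    · exact h18 h16
  -- the relations
  intro t ht0 _ N hN0 hprod
  have hrel : (t.map fun i => (α' i : ℂ)).prod ^ N = ((q : ℂ) ^ t.card) ^ N := by
    simp only [h1]
    exact hprod
  rcases hMIN ρ σ hσ k q hk hqodd α' v Z S h2 h3 h4 h5 h6 h7 h8 h9 h10 (fun l hl1 hl2 => by
      obtain ⟨r, hr1, hr2, hr3, hr4, hr5⟩ := exists_odd hPSYM hq6 hfin hw.1 hl1 hl2
        (hbad l hl1 hl2)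
      refine ⟨r, hr3, hr4, ?_⟩
      rw [h11 r hr1 hr2, hr5]
      simp) t ht0 N hN0 hrel with ⟨i, j, t', ht', hij⟩ | ⟨N', hN', hrel'⟩
  · refine ⟨i, j, t', ht', ?_⟩
    rw [← h1, ← h1]
    have hij' := congrArg (Subtype.val : AA → ℂ) hij
    push_cast at hij'
    exact hij'
  · exact (hfalse N' hN' hrel').elim

end Pool.Agent.Work.ES
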