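import Pool.Agent.Work.MP_223b32_es.DefsY
import Pool.Agent.Work.MP_223b32_ag.Powers
import Pool.Agent.Work.MP_223b32_t3.FLAR

/-!
# The linear algebra of the products with other varieties
-/

namespace Pool.Agent.Work.ES

open Finset Polynomial Module TensorProduct Pool.Agent.Work.MP_223b32_ag
open Pool.Agent.Work.MP_223b32_ag_56 Pool.Agent.Work.T3 Pool.Agent.Work.T3.FLAR Pool.Agent.Work.TC

/-- The case of a diagonal second factor. -/
theorem indep_diag {W V S : Type} [AddCommGroup W] [Module ℂ W] [Module.Finite ℂ W]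
    [AddCommGroup V] [Module ℂ V] [Module.Finite ℂ V] [Fintype S] [DecidableEq S]
    (e : Basis S ℂ V) (D : Module.End ℂ V) (ε : S → ℂ) (hD : ∀ s, D (e s) = ε s • e s)
    (u : Module.End ℂ W) {n : ℕ} (hn : 0 < n) {Q : ℝ} (hQ1 : 1 < Q) (c i : ℕ)
    (hE : ∀ z, u.HasEigenvalue z → ∀ s, z ^ n * ε s = (Q : ℂ) ^ (c + i) → ε s = (Q : ℂ) ^ i) :
    IndepS (u ^ n) D Q c i := by
  classical
  set ψ : Module.End ℂ W := u ^ n with hψ
  have hQ0 : (Q : ℂ) ≠ 0 := by
    have : Q ≠ 0 := by linarith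
    exact_mod_cast this
  have hroot : ∀ x ∈ ψ.charpoly.roots, ∃ z, u.HasEigenvalue z ∧ z ^ n = x := by
    intro x hx
    refine eig_pow u hn ?_
    rw [Module.End.hasEigenvalue_iff_isRoot_charpoly]
    exact isRoot_of_mem_roots hx
  have hcoord : ∀ (s : S) {h : W}, h ≠ 0 → ε s • ψ h = (Q : ℂ) ^ (c + i) • h →
      ε s = (Q : ℂ) ^ i ∧ ψ h = (Q : ℂ) ^ c • h := by
    intro s h hh hs
    have hε : ε s ≠ 0 := by
      intro h0
      rw [h0, zero_smul] at hs
      exact (smul_ne_zero (pow_ne_zero _ hQ0) hh) hs.symm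
    have h1 : ψ h = ((Q : ℂ) ^ (c + i) / ε s) • h := by
      rw [div_eq_inv_mul, mul_smul, ← hs, smul_smul, inv_mul_cancel₀ hε, one_smul]
    obtain ⟨z, hz, hzn⟩ := eig_pow u hn (μ := (Q : ℂ) ^ (c + i) / ε s)
      (End.hasEigenvalue_of_hasEigenvector ⟨End.mem_eigenspace_iff.2 h1, hh⟩)
    have h2 := hE z hz s (by rw [hzn, div_mul_cancel₀ _ hε])
    refine ⟨h2, ?_⟩
    rw [h1, h2, pow_add, mul_div_cancel_right₀ _ (pow_ne_zero _ hQ0)]
  have hDiv : ∀ d : V, d ∈ Tate D (Q : ℂ) i ↔ D d = (Q : ℂ) ^ i • d := fun d => mem_Tate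
  refine ⟨?_, ?_⟩
  · apply le_antisymm
    · intro x hx
      rw [Tate, LinearMap.mem_ker, LinearMap.sub_apply, LinearMap.smul_apply,
        LinearMap.id_apply, sub_eq_zero] at hx
      obtain ⟨h, hh, hco⟩ := ker_tensor (e := e) hD ψ _ hx
      rw [← hh]
      refine Submodule.sum_mem _ fun s hs => ?_
      have hs0 : h s ≠ 0 := Finsupp.mem_support_iff.1 hs
      obtain ⟨hε, hψh⟩ := hcoord s hs0 (hco s)
      have h1 : h s ∈ Tate ψ (Q : ℂ) c := mem_Tate.2 hψh
      have h2 : e s ∈ Tate D (Q : ℂ) i := by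
        rw [hDiv, hD, hε]
      exact ⟨⟨h s, h1⟩ ⊗ₜ ⟨_, h2⟩, rfl⟩
    · rintro _ ⟨y, rfl⟩
      rw [Tate, LinearMap.mem_ker, LinearMap.sub_apply, LinearMap.smul_apply,
        LinearMap.id_apply, sub_eq_zero]
      induction y using TensorProduct.induction_on with
      | zero => simp
      | add x y hx hy => rw [map_add, map_add, hx, hy, smul_add]
      | tmul h d =>
        rw [TensorProduct.map_tmul, TensorProduct.map_tmul]
        have h1 : ψ (h : W) = (Q : ℂ) ^ c • (h : W) := mem_Tate.1 h.2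
        have h3 := (hDiv d).1 d.2
        simp only [Submodule.subtype_apply]
        rw [h1, h3, TensorProduct.smul_tmul_smul, ← pow_add]
  · intro r hr
    have hLψ : ∀ s : ℂ, LL ψ Q s =
        ((ψ.charpoly.roots.map fun e => 1 - (Q : ℂ) ^ (-s) * e).prod)⁻¹ := by
      intro s
      rw [LL, det_one_sub]
    have hL : ∀ s : ℂ, LL (TensorProduct.map ψ D) Q s =
        (((∑ t : S, ψ.charpoly.roots.map fun e => ε t * e).map
            fun e => 1 - (Q : ℂ) ^ (-s) * e).prod)⁻¹ := by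
      intro s
      rw [LL, det_tensor (e := e) hD]
      congr 1
      have h1 : (∑ t : S, ψ.charpoly.roots.map fun e => ε t * e).map
          (fun e => 1 - (Q : ℂ) ^ (-s) * e) =
          ∑ t : S, (ψ.charpoly.roots.map fun e => ε t * e).map
            (fun e => 1 - (Q : ℂ) ^ (-s) * e) :=
        map_sum (Multiset.mapAddMonoidHom fun e => 1 - (Q : ℂ) ^ (-s) * e) _ _
      rw [h1, Multiset.prod_sum]
      refine prod_congr rfl fun t _ => ?_
      rw [det_one_sub, Multiset.map_map]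
      refine congrArg Multiset.prod (Multiset.map_congr rfl fun e _ => ?_)
      simp only [Function.comp_apply]
      ring
    have h2 : HasPoleOrder (LL (TensorProduct.map ψ D) Q) ((c + i : ℕ) : ℝ)
        (∑ t : S, (ψ.charpoly.roots.map fun e => ε t * e).count ((Q : ℂ) ^ (c + i))) := by
      have h1 := pole hQ1 (c + i) (∑ t : S, ψ.charpoly.roots.map fun e => ε t * e)
      rw [Multiset.count_sum'] at h1
      have h2 : LL (TensorProduct.map ψ D) Q = fun s : ℂ =>
          (((∑ t : S, ψ.charpoly.roots.map fun e => ε t * e).map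
            fun e => 1 - (Q : ℂ) ^ (-s) * e).prod)⁻¹ := funext hL
      rw [h2]
      exact h1
    have h1 : r = ψ.charpoly.roots.count ((Q : ℂ) ^ c) := by
      refine pole_unique hr ?_
      have h2 := pole hQ1 c ψ.charpoly.roots
      have h3 : LL ψ Q = fun s : ℂ =>
          ((ψ.charpoly.roots.map fun e => 1 - (Q : ℂ) ^ (-s) * e).prod)⁻¹ := funext hLψ
      rw [h3]
      exact h2
    have h3 : ∀ t : S, (ψ.charpoly.roots.map fun e => ε t * e).count ((Q : ℂ) ^ (c + i)) =
          if ε t = (Q : ℂ) ^ i then r else 0 := by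
      intro t
      split_ifs with ht
      · rw [ht, h1, add_comm c i, pow_add]
        exact Multiset.count_map_eq_count' (fun e : ℂ => (Q : ℂ) ^ i * e) _
          (fun x y hxy => mul_left_cancel₀ (pow_ne_zero _ hQ0) hxy) _
      · rw [Multiset.count_eq_zero]
        intro hmem
        obtain ⟨e, he, hee⟩ := Multiset.mem_map.1 hmem
        obtain ⟨z, hz, rfl⟩ := hroot e he
        exact ht (hE z hz t (by rw [mul_comm]; exact hee))
    rw [sum_congr rfl fun t _ => h3 t, ← sum_filter, sum_const, smul_eq_mul] at h2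
    have h4 : finrank ℂ (Tate D (Q : ℂ) i) =
        (univ.filter fun t : S => ε t = (Q : ℂ) ^ i).card := by
      have h5 : Tate D (Q : ℂ) i = Submodule.span ℂ (Set.range
          fun t : {t : S // ε t = (Q : ℂ) ^ i} => e t.1) := by
        apply le_antisymm
        · intro x hx
          rw [hDiv] at hx
          refine mem_span_of_repr (B := e) (fun t => ε t = (Q : ℂ) ^ i) fun t ht => ?_
          have h6 := repr_diag (B := e) hD x t
          rw [hx, map_smul, Finsupp.smul_apply, smul_eq_mul] at h6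
          exact (mul_right_cancel₀ ht h6).symm
        · rw [Submodule.span_le]
          rintro _ ⟨t, rfl⟩
          rw [SetLike.mem_coe, hDiv, hD, t.2]
      have h6 : LinearIndependent ℂ fun t : {t : S // ε t = (Q : ℂ) ^ i} => e t.1 :=
        e.linearIndependent.comp _ Subtype.val_injective
      rw [h5, finrank_span_eq_card h6, Fintype.card_subtype]
    rw [h4, mul_comm r]
    have h6 : ((c : ℝ) + i) = ((c + i : ℕ) : ℝ) := by push_cast; rfl
    rw [h6]
    exact h2

/-- The linear algebra. -/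
theorem lin_indep (H : Type) [CommRing H] [Algebra ℂ H] [Module.Finite ℂ H]
    (𝒜 : ℕ → Submodule ℂ H) [GradedAlgebra 𝒜] (φ : H →ₐ[ℂ] H) (hφ : ∀ i, ∀ x ∈ 𝒜 i, φ x ∈ 𝒜 i)
    (hss : Module.End.IsSemisimple φ.toLinearMap) (Q : ℕ) (hQ : 1 < Q) (P : ℂ → Prop)
    (h1 : ∀ i ≠ 1, ∀ x ∈ 𝒜 i, φ x = (Q : ℂ) ^ i • x)
    (h2 : ∀ μ : ℂ, ∀ x ∈ 𝒜 1, x ≠ 0 → φ x = μ • x → μ = Q ∨ P μ) (r i : ℕ)
    (W : Type) [AddCommGroup W] [Module ℂ W] [Module.Finite ℂ W] (u : Module.End ℂ W)
    {n : ℕ} (hn : 0 < n) (c : ℕ)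
    (hrel : ∀ z, u.HasEigenvalue z → ∀ T : Multiset ℂ, (∀ x ∈ T, P x) → T.card ≤ i →
      z ^ n * T.prod = (Q : ℂ) ^ (c + T.card) → T.prod = (Q : ℂ) ^ T.card) :
    IndepS (u ^ n) (powFrobDeg hφ r i) (Q : ℝ) c i := by
  classical
  obtain ⟨κ, _, b, δ, lam, hδ, hb, hrepr⟩ := exists_homogeneous_eigenbasis hφ hss
  have hQ0 : (Q : ℂ) ≠ 0 := by
    have : Q ≠ 0 := by omega
    exact_mod_cast this
  have hspan : Submodule.span ℂ (Set.range
      fun s : {s : Fin r → κ // ∑ t, δ (s t) = i} => powBasis b r s.1) = powDeg 𝒜 r i := by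
    apply le_antisymm
    · rw [Submodule.span_le]
      rintro _ ⟨⟨s, hs⟩, rfl⟩
      rw [SetLike.mem_coe, mem_powDeg_iff hδ hrepr]
      intro s' hs'
      rw [Basis.repr_self, Finsupp.single_apply_ne_zero] at hs'
      rw [hs'.1]
      exact hs
    · intro x hx
      exact mem_span_of_repr _ ((mem_powDeg_iff hδ hrepr).1 hx)
  have hli : LinearIndependent ℂ
      fun s : {s : Fin r → κ // ∑ t, δ (s t) = i} => powBasis b r s.1 :=
    (powBasis b r).linearIndependent.comp _ Subtype.val_injective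
  let B := (Basis.span hli).map (LinearEquiv.ofEq _ _ hspan)
  have hB : ∀ s, ((B s : powDeg 𝒜 r i) : PowCoh H r) = powBasis b r s.1 := by
    intro s
    show ((Basis.span hli s : _) : PowCoh H r) = _
    rw [Basis.span_apply]
  have hdiag : ∀ s, powFrobDeg hφ r i (B s) = (∏ t, lam (s.1 t)) • B s := by
    intro s
    apply Subtype.ext
    rw [powFrobDeg, LinearMap.coe_restrict_apply, hB, powFrob_powBasis hb, SetLike.val_smul, hB]
  have hT : ∀ k, lam k = (Q : ℂ) ^ δ k ∨ (δ k = 1 ∧ P (lam k)) := by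
    intro k
    have hbk : b k ≠ 0 := b.ne_zero k
    by_cases hk : δ k = 1
    · rcases h2 (lam k) (b k) (hk ▸ hδ k) hbk (hb k) with h | h
      · left; rw [h, hk, pow_one]
      · right; exact ⟨hk, h⟩
    · left
      have h3 := h1 _ hk _ (hδ k)
      rw [hb k] at h3
      exact smul_left_injective ℂ hbk h3
  refine indep_diag B (powFrobDeg hφ r i) _ hdiag u hn (by exact_mod_cast hQ) c i ?_
  rintro z hz ⟨s, hs⟩ hz2
  rw [Complex.ofReal_natCast] at hz2 ⊢
  simp only at hz2 ⊢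
  set J : Finset (Fin r) := univ.filter fun t => lam (s t) ≠ (Q : ℂ) ^ δ (s t) with hJ
  have hJ1 : ∀ t ∈ J, δ (s t) = 1 ∧ P (lam (s t)) := fun t ht =>
    (hT (s t)).resolve_left (mem_filter.1 ht).2
  have hprod : ∏ t, lam (s t) = (Q : ℂ) ^ (∑ t ∈ univ \ J, δ (s t)) * ∏ t ∈ J, lam (s t) := by
    rw [← Finset.prod_sdiff (subset_univ J), ← prod_pow_eq_pow_sum]
    congr 1
    refine prod_congr rfl fun t ht => ?_
    have h3 := (mem_sdiff.1 ht).2
    rw [hJ, mem_filter] at h3
    push Not at h3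
    exact h3 (mem_univ t)
  have hsum : ∑ t ∈ univ \ J, δ (s t) + J.card = i := by
    rw [← hs, ← Finset.sum_sdiff (subset_univ J), Finset.card_eq_sum_ones]
    congr 1
    exact sum_congr rfl fun t ht => (hJ1 t ht).1.symm
  have hrel' := hrel z hz (J.val.map fun t => lam (s t)) (fun x hx => by
    obtain ⟨t, ht, rfl⟩ := Multiset.mem_map.1 hx
    exact (hJ1 t ht).2) (by
      rw [Multiset.card_map]
      show J.card ≤ i
      omega)
  rw [Multiset.card_map] at hrel'
  have h5 : ∏ t ∈ J, lam (s t) = (Q : ℂ) ^ J.card := by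
    refine hrel' ?_
    rw [hprod] at hz2
    have h6 : c + i = ∑ t ∈ univ \ J, δ (s t) + (c + J.card) := by omega
    rw [h6, pow_add] at hz2
    refine mul_left_cancel₀ (pow_ne_zero (∑ t ∈ univ \ J, δ (s t)) hQ0) ?_
    show _ * (z ^ n * ∏ t ∈ J, lam (s t)) = _ * (Q : ℂ) ^ (c + J.card)
    rw [← hz2]
    ring
  rw [hprod, h5, ← pow_add, hsum]

end Pool.Agent.Work.ES
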