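import Pool.Agent.Work.MP_223b32_es_helper28.YREL

/-!
# The theorem with products with other varieties
-/

namespace Pool.Agent.Work.ES

open Finset Polynomial Module Pool.Agent.Work.MP_223b32_ag Pool.Agent.Work.TC
open Pool.Agent.Work.TL (AA Om Stmt_FA)

open ONE3 in
/-- The Tate property and the independence from the relations. -/
theorem ymain (hDATA : Stmt_DATA3) (hFA : Stmt_FA) (hRHO : Stmt_RHO) (hORB : Stmt_ORB2)
    (hFLAB : Stmt_FLAB) (F K : Type) [Field F] [Fintype F] [Field K] [Fintype K]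
    [DecidableEq K] [Algebra F K] (hq6 : Fintype.card F % 6 = 1) (k : ℕ) (hk : 1 ≤ k)
    (hfin : Module.finrank F K = 3 ^ k) (c0 : F) (w : K) (hw : NC w) (α : Fin (2 * 3 ^ k) → ℂ)
    (hα : IsEig F (mm c0) (minpoly F (hc c0 w)) α) (c : ℕ → Prop)
    (hc : ∀ a b, a ≤ b → c b → c a) (hR : RelP (Fintype.card F) α c) :
    TateS (Fintype.card F) α c ∧
      ∀ b ≤ k, TateYS (Fintype.card F) (3 ^ (b + 1)) α fun i => i < 3 ^ (k - b) ∧ c (2 * i) := by
  classical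
  obtain ⟨ρ⟩ := hRHO
  obtain ⟨σ, hσ⟩ := hFA ρ
  obtain ⟨α', v, Z, S, h1, h2, h3, h4, h5, h6, h7, h8, h9, h10, h11⟩ :=
    hDATA F K hq6 k hk hfin c0 w hw α hα ρ
  set q := Fintype.card F with hq
  have hq1 : 1 < q := Fintype.one_lt_card
  have hpair : ∀ i, ∃ j, α' i * α' j = (q : AA) ^ 2 := by
    intro i
    obtain ⟨x, hx⟩ := h7 (ρ (α' i))⁻¹ (by
      obtain ⟨hS1, hS2⟩ := (h4 _).1 (h5 i)
      refine (h4 _).2 ⟨by rw [inv_pow, hS1, inv_one], fun h0 => hS2 ?_⟩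
      rw [inv_pow, inv_eq_one] at h0
      exact h0)
    exact ⟨x, (h9 i x).2 hx⟩
  constructor
  · intro N hN H _ _ _ 𝒜 _ φ h r i hi
    have hQ : 1 < q ^ N := Nat.one_lt_pow hN.ne' hq1
    have key := hFLAB H 𝒜 φ h.map_mem h.isSemisimple (q ^ N) hQ (fun z => ∃ i, z = α i ^ N)
      h.eq_of_ne_one h.eigenvalue i ?_ r
    · exact ⟨fun z hz => key.1 hz, key.2⟩
    · intro s hs hs0 hcard hprod
      obtain ⟨t, rfl⟩ := lift (fun i => α i ^ N) s hs
      rw [Multiset.card_map] at hcard hprod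
      have ht0 : t ≠ 0 := fun h0 => hs0 (by rw [h0, Multiset.map_zero])
      obtain ⟨i', j', t', ht', hij⟩ := hR t ht0 (hc _ _ hcard hi) N hN (by
        rw [← Multiset.prod_map_pow, hprod]
        push_cast
        rw [← pow_mul, ← pow_mul, mul_comm])
      refine ⟨α i' ^ N, α j' ^ N, t'.map fun i => α i ^ N, ?_, ?_⟩
      · rw [ht', Multiset.map_cons, Multiset.map_cons]
      · rw [← mul_pow, hij]
        push_cast
        rw [← pow_mul, ← pow_mul, mul_comm]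
  · rintro b hb N hN H _ _ _ 𝒜 _ φ h r i ⟨hi, hci⟩ W _ _ _ u hu c1
    have hQ : 1 < q ^ N := Nat.one_lt_pow hN.ne' hq1
    refine lin_indep H 𝒜 φ h.map_mem h.isSemisimple (q ^ N) hQ (fun z => ∃ i, z = α i ^ N)
      h.eq_of_ne_one h.eigenvalue r i W u hN c1 ?_
    intro z hz T hT hcard hprod
    obtain ⟨t, rfl⟩ := lift (fun i => α i ^ N) T hT
    rw [Multiset.card_map] at hcard hprod ⊢
    have key := yrel hORB ρ σ hσ k q hq1 α α' h1 (fun i => (h4 _).1 (h5 i)) h6 hpair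
      (fun i j hij he => by
        subst he
        have h12 := (h9 i i).1 hij
        obtain ⟨hS1, hS2⟩ := (h4 _).1 (h5 i)
        have h13 : ρ (α' i) ^ 2 = 1 := by
          have h14 : ρ (α' i) ≠ 0 := by
            intro h0
            rw [h0, zero_pow (by positivity)] at hS1
            exact zero_ne_one hS1
          nth_rewrite 1 [sq, h12]
          exact inv_mul_cancel₀ h14
        have h15 : ρ (α' i) = 1 := by
          have h16 : orderOf (ρ (α' i)) ∣ Nat.gcd 2 (3 ^ (k + 1)) :=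
            Nat.dvd_gcd (orderOf_dvd_of_pow_eq_one h13) (orderOf_dvd_of_pow_eq_one hS1)
          have h17 : Nat.gcd 2 (3 ^ (k + 1)) = 1 := Nat.Coprime.pow_right _ (by norm_num)
          rw [h17, Nat.dvd_one] at h16
          exact orderOf_eq_one_iff.1 h16
        exact hS2 (by rw [h15, one_pow])) h10 c hc hR b hb z (hu z hz) t
      (lt_of_le_of_lt hcard hi) (hc _ _ (by omega) hci) N hN c1 (by
        rw [hprod]
        push_cast
        ring)
    rw [Multiset.prod_map_pow, key]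
    push_cast
    rw [← pow_mul, ← pow_mul, mul_comm]

open MAINA in
/-- The first part. -/
theorem mainAY (hDATA : Stmt_DATA3) (hFA : Stmt_FA) (hRHO : Stmt_RHO) (hORB : Stmt_ORB2)
    (hFLAB : Stmt_FLAB) (hMREL : Stmt_MREL) (hMODU : Stmt_MODU) (hPSYM : Stmt_PSYM)
    (hCNTB : Stmt_CNTB) (hPAR2 : Stmt_PAR2) (hEXT : Stmt_EXT) (hTRL : Stmt_TRL) (F : Type)
    [Field F] [Fintype F] (hq6 : Fintype.card F % 6 = 1) (k : ℕ) (hk : 4 ≤ k) (m : F[X])
    (hm1 : m.Monic) (hm2 : m.natDegree = 3) (j : ℕ) (hj1 : 1 ≤ j) (hj2 : j ≤ k) :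
    ((exceptionalY F m k fun i => i < 3 ^ (k + 1 - j)).ncard : ℝ) ≤
      2 / 3 * (1 / 2) ^ 3 ^ (j - 1) * ((fam F m (3 ^ k)).ncard : ℝ) := by
  classical
  obtain ⟨K, _, _, _, hK⟩ := hEXT F (3 ^ k) (by positivity)
  obtain ⟨c, e, hce⟩ := hTRL F hq6 m hm1 hm2
  obtain ⟨hfam, heig⟩ := hce (3 ^ k) (Nat.one_le_pow _ _ (by norm_num))
  have hk1 : 1 ≤ k := by omega
  have hfamcard : (fam F m (3 ^ k)).ncard = (fam F (mm c) (3 ^ k)).ncard := by
    have h := ncard_translate m c e (3 ^ k) (fun _ => True) (fun _ => True) hfam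
      (fun _ => Iff.rfl)
    simp only [and_true] at h
    exact h
  rw [hfamcard]
  have hexc : (exceptionalY F m k fun i => i < 3 ^ (k + 1 - j)).ncard =
      {D | D ∈ fam F (mm c) (3 ^ k) ∧ ∃ α : Fin (2 * 3 ^ k) → ℂ, IsEig F (mm c) D α ∧
        ¬ (TateS (Fintype.card F) α (fun i => i < 3 ^ (k + 1 - j)) ∧
          ∀ b ≤ k, TateYS (Fintype.card F) (3 ^ (b + 1)) α fun i =>
            i < 3 ^ (k - b) ∧ 2 * i < 3 ^ (k + 1 - j))}.ncard := by
    refine ncard_translate m c e (3 ^ k) _ _ hfam fun D => ?_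
    simp only [heig]
  rw [hexc]
  refine ratio hPAR2 hq6 hk1 hK c _ _ (le_trans (mono_card _ _ ?_)
    (hCNTB F K hq6 k hk hK j hj1 hj2))
  rintro w ⟨hw, α, hα1, hα2⟩
  refine ⟨hw, ?_⟩
  by_contra h
  push Not at h
  have hR := rel3 hDATA hRHO hMREL hMODU hPSYM F K hq6 k hk1 hK c w hw α hα1 j hj1 hj2 h
  exact hα2 (ymain hDATA hFA hRHO hORB hFLAB F K hq6 k hk1 hK c w hw α hα1 _
    (fun a b hab hb => lt_of_le_of_lt hab hb) hR)

open MAINA in
/-- The third part. -/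
theorem mainCY (hDATA : Stmt_DATA3) (hFA : Stmt_FA) (hRHO : Stmt_RHO) (hORB : Stmt_ORB2)
    (hFLAB : Stmt_FLAB) (hEX3 : Stmt_EX3) (hMIN : Stmt_MIN) (hRHOP : Stmt_RHOP)
    (hVALJ : Stmt_VALJ) (hVALB : Stmt_VALB) (hBETA : Stmt_BETA) (hPSYM : Stmt_PSYM)
    (hPAR1 : Stmt_PAR1) (hPT : Stmt_PT) (hCNTB : Stmt_CNTB) (hPAR2 : Stmt_PAR2)
    (hEXT : Stmt_EXT) (F : Type) [Field F] [Fintype F] (hq6 : Fintype.card F % 6 = 1)
    (hp : ringChar F % 3 = 1) (k : ℕ) (hk : 4 ≤ k) :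
    ((exceptionalY F (X ^ 3) k fun _ => True).ncard : ℝ) ≤
      1 / 3 * ((fam F (X ^ 3 : F[X]) (3 ^ k)).ncard : ℝ) := by
  classical
  obtain ⟨K, _, _, _, hK⟩ := hEXT F (3 ^ k) (by positivity)
  have hk1 : 1 ≤ k := by omega
  have h1 := ratio hPAR2 hq6 hk1 hK (0 : F)
    (fun D => ∃ α : Fin (2 * 3 ^ k) → ℂ, IsEig F (X ^ 3) D α ∧
      ¬ (TateS (Fintype.card F) α (fun _ => True) ∧
        ∀ b ≤ k, TateYS (Fintype.card F) (3 ^ (b + 1)) α fun i =>
          i < 3 ^ (k - b) ∧ True)) (1 / 3) ?_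
  · rw [mm_zero] at h1
    exact h1
  · have h2 := hCNTB F K hq6 k hk hK 1 le_rfl hk1
    refine le_trans (mono_card _ _ ?_) (h2.trans (le_of_eq (by norm_num)))
    rintro w ⟨hw, α, hα1, hα2⟩
    rw [hc_zero] at hα1
    refine ⟨hw, ?_⟩
    by_contra h
    push Not at h
    have hR := relC hEX3 hDATA hMIN hFA hRHO hRHOP hVALJ hVALB hBETA hPSYM hPAR1 hPT hEXT F K
      hq6 hp k hk1 hK w hw α hα1 h
    have hαc : IsEig F (mm 0) (minpoly F (hc (0 : F) w)) α := by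
      rw [mm_zero, hc_zero]
      exact hα1
    exact hα2 (ymain hDATA hFA hRHO hORB hFLAB F K hq6 k hk1 hK 0 w hw α hαc _
      (fun a b _ _ => trivial) hR)

end Pool.Agent.Work.ES
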