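import Pool.Agent.Work.MP_223b32_es_helper28.RELS
import Pool.Agent.Work.MP_223b32_es_helper28.YLIN
import Pool.Agent.Work.MP_223b32_tr.FIX

/-!
# Relations between the eigenvalues of the surface and algebraic integers of small degree
-/

namespace Pool.Agent.Work.ES

open Finset Polynomial Module Pool.Agent.Work.MP_223b32_ag Pool.Agent.Work.TC
open Pool.Agent.Work.TL (AA Om Stmt_FA)

namespace YREL

section Bal

variable {q M : ℕ} {α : Fin M → ℂ} {bar : Fin M → Fin M}

lemma ne_zero (hq0 : (q : ℂ) ≠ 0) (hbar : ∀ i, α i * α (bar i) = (q : ℂ) ^ 2) (i : Fin M) :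
    α i ≠ 0 := by
  intro h
  have h1 := hbar i
  rw [h, zero_mul] at h1
  exact pow_ne_zero 2 hq0 h1.symm

lemma bar_bar (hq0 : (q : ℂ) ≠ 0) (hbar : ∀ i, α i * α (bar i) = (q : ℂ) ^ 2)
    (hinj : Function.Injective α) (i : Fin M) : bar (bar i) = i := by
  apply hinj
  have h1 := hbar (bar i)
  rw [← hbar i, mul_comm (α i)] at h1
  exact mul_left_cancel₀ (ne_zero hq0 hbar (bar i)) h1

/-- A relation is balanced. -/
lemma bal_of_rel {c : ℕ → Prop} (hc : ∀ a b, a ≤ b → c b → c a) (hR : RelP q α c)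
    (hq0 : (q : ℂ) ≠ 0) (hbar : ∀ i, α i * α (bar i) = (q : ℂ) ^ 2)
    (hinj : Function.Injective α) (N : ℕ) (hN : 0 < N) : ∀ (n : ℕ) (s : Multiset (Fin M)),
    s.card = n → c n → (s.map α).prod ^ N = ((q : ℂ) ^ s.card) ^ N →
      ∀ x, s.count (bar x) = s.count x := by
  intro n
  induction n using Nat.strong_induction_on with
  | _ n ih =>
    intro s hs hcn hrel x
    rcases eq_or_ne s 0 with rfl | hs0
    · simp
    · obtain ⟨i, j, t, hst, hij⟩ := hR s hs0 (by rw [hs]; exact hcn) N hN hrel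
      have hj : j = bar i := by
        apply hinj
        rw [← hbar i] at hij
        exact mul_left_cancel₀ (ne_zero hq0 hbar i) hij
      have hcard : s.card = t.card + 2 := by rw [hst]; simp
      have ht := ih t.card (by omega) t rfl (hc _ _ (by omega) hcn) (by
        rw [hst, Multiset.map_cons, Multiset.map_cons, Multiset.prod_cons, Multiset.prod_cons,
          ← mul_assoc, hij, Multiset.card_cons, Multiset.card_cons, mul_pow] at hrel
        have h1 : ((q : ℂ) ^ (t.card + 1 + 1)) ^ N = ((q : ℂ) ^ 2) ^ N * ((q : ℂ) ^ t.card) ^ N := by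
          rw [← mul_pow]
          ring
        rw [h1] at hrel
        exact mul_left_cancel₀ (pow_ne_zero _ (pow_ne_zero _ hq0)) hrel) x
      have hbb := bar_bar hq0 hbar hinj
      rw [hst, hj, Multiset.count_cons, Multiset.count_cons, Multiset.count_cons,
        Multiset.count_cons, ht]
      have h1 : (bar x = i) ↔ (x = bar i) := by
        constructor
        · rintro rfl; exact (hbb x).symm
        · rintro rfl; exact hbb i
      have h2 : (bar x = bar i) ↔ (x = i) := by
        constructor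
        · intro h
          rw [← hbb x, h, hbb]
        · rintro rfl; rfl
      simp only [h1, h2]
      ring

/-- The product of the eigenvalues over a balanced multiset. -/
lemma prod_of_bal (hbar : ∀ i, α i * α (bar i) = (q : ℂ) ^ 2) (hbb : ∀ i, bar (bar i) = i)
    (hne : ∀ i, bar i ≠ i) : ∀ (n : ℕ) (s : Multiset (Fin M)), s.card = n →
    (∀ x, s.count (bar x) = s.count x) → (s.map α).prod = (q : ℂ) ^ s.card := by
  intro n
  induction n using Nat.strong_induction_on with
  | _ n ih =>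
    intro s hs hbal
    rcases Multiset.empty_or_exists_mem s with rfl | ⟨i, hi⟩
    · simp
    · have h1 : bar i ∈ s := by
        rw [← Multiset.count_pos, hbal]
        exact Multiset.count_pos.2 hi
      obtain ⟨t, rfl⟩ := Multiset.exists_cons_of_mem hi
      have h2 : bar i ∈ t := by
        rcases Multiset.mem_cons.1 h1 with h | h
        · exact absurd h (hne i)
        · exact h
      obtain ⟨t, rfl⟩ := Multiset.exists_cons_of_mem h2
      have h3 := ih t.card (by rw [← hs]; simp) t rfl (fun x => by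
        have h4 := hbal x
        rw [Multiset.count_cons, Multiset.count_cons, Multiset.count_cons,
          Multiset.count_cons] at h4
        have h5 : (bar x = i) ↔ (x = bar i) := by
          constructor
          · rintro rfl; exact (hbb x).symm
          · rintro rfl; exact hbb i
        have h6 : (bar x = bar i) ↔ (x = i) := by
          constructor
          · intro h
            rw [← hbb x, h, hbb]
          · rintro rfl; rfl
        simp only [h5, h6] at h4
        omega)
      rw [Multiset.map_cons, Multiset.map_cons, Multiset.prod_cons, Multiset.prod_cons,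
        ← mul_assoc, hbar, h3, Multiset.card_cons, Multiset.card_cons]
      ring

/-- A multiset which is smaller than all orbits and whose imbalance is invariant is balanced. -/
lemma bal_of_orbit (hbb : ∀ i, bar (bar i) = i) (π : Fin M → Fin M) (L : ℕ)
    (hL : ∀ i, ∀ a < L, ∀ b < L, π^[a] i = π^[b] i → a = b) (s : Multiset (Fin M))
    (hs : s.card < L)
    (hd : ∀ i, (s.count (π i) : ℤ) - s.count (bar (π i)) = s.count i - s.count (bar i)) :
    ∀ x, s.count (bar x) = s.count x := by
  classical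
  have key : ∀ i, ¬ (s.count (bar i) < s.count i) := by
    intro i hi
    have h1 : ∀ t : ℕ, (s.count (π^[t] i) : ℤ) - s.count (bar (π^[t] i)) =
        s.count i - s.count (bar i) := by
      intro t
      induction t with
      | zero => rfl
      | succ t ih => rw [Function.iterate_succ_apply', hd, ih]
    have h2 : (range L).image (fun t => π^[t] i) ⊆ s.toFinset := by
      intro x hx
      obtain ⟨t, _, rfl⟩ := mem_image.1 hx
      rw [Multiset.mem_toFinset, ← Multiset.count_pos]
      have := h1 t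
      omega
    have h3 := card_le_card h2
    rw [card_image_of_injOn (fun a ha b hb hab =>
      hL i a (mem_range.1 (mem_coe.1 ha)) b (mem_range.1 (mem_coe.1 hb)) hab), card_range] at h3
    have h4 := Multiset.toFinset_card_le s
    omega
  intro x
  have h1 := key x
  have h2 := key (bar x)
  rw [hbb] at h2
  omega

end Bal

/-- A number divisible by all positive integers less than `B ≤ 3 ^ (b + 1)`, and by no higher power
of `3` than `3 ^ b`. -/
lemma exists_K (b B : ℕ) (hB : B ≤ 3 ^ (b + 1)) :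
    ∃ K' : ℕ, 0 < K' ∧ Nat.Coprime K' 3 ∧ ∀ m : ℕ, 0 < m → m < B → m ∣ 3 ^ b * K' := by
  refine ⟨∏ m ∈ Icc 1 B, ordCompl[3] m, ?_, ?_, ?_⟩
  · refine Finset.prod_pos fun m hm => ?_
    exact Nat.ordCompl_pos 3 (by have := (mem_Icc.1 hm).1; omega)
  · refine Nat.Coprime.prod_left fun m hm => ?_
    exact (Nat.coprime_ordCompl Nat.prime_three (by have := (mem_Icc.1 hm).1; omega)).symm
  · intro m hm hmB
    have h1 : m = ordProj[3] m * ordCompl[3] m := (Nat.ordProj_mul_ordCompl_eq_self m 3).symm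
    have h2 : ordProj[3] m ∣ 3 ^ b := by
      refine pow_dvd_pow 3 ?_
      have h3 : 3 ^ m.factorization 3 < 3 ^ (b + 1) :=
        lt_of_le_of_lt (Nat.ordProj_le 3 (by omega)) (lt_of_lt_of_le hmB hB)
      have h4 := (Nat.pow_lt_pow_iff_right (by norm_num : 1 < 3)).1 h3
      omega
    have h3 : ordCompl[3] m ∣ ∏ m ∈ Icc 1 B, ordCompl[3] m :=
      dvd_prod_of_mem (fun m => ordCompl[3] m) (mem_Icc.2 ⟨hm, hmB.le⟩)
    calc m = ordProj[3] m * ordCompl[3] m := h1
      _ ∣ _ := Nat.mul_dvd_mul h2 h3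

/-- Products of algebraic integers of degree less than `B` are fixed by `σ ^ K`. -/
lemma fix (σ : AA ≃+* AA) (B K : ℕ) (hK : ∀ m : ℕ, 0 < m → m < B → m ∣ K) : ∀ t : Multiset ℂ,
    (∀ γ ∈ t, ∃ P : ℤ[X], P.Monic ∧ aeval γ P = 0 ∧ P.natDegree < B) →
    ∃ x : AA, (x : ℂ) = t.prod ∧ (σ ^ K) x = x := by
  intro t
  induction t using Multiset.induction_on with
  | empty =>
    intro _
    exact ⟨1, by simp, by simp⟩
  | cons γ t ih =>
    intro h
    obtain ⟨x, hx, hfix⟩ := ih fun γ' hγ' => h γ' (Multiset.mem_cons_of_mem hγ')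
    obtain ⟨P, hP, hγ, hdeg⟩ := h γ (Multiset.mem_cons_self γ t)
    have hint : IsIntegral ℤ γ := ⟨P, hP, by rwa [aeval_def] at hγ⟩
    set y : AA := ⟨γ, hint⟩ with hy
    have hyP : aeval y P = 0 := by
      apply Subtype.ext
      have h1 : ((aeval y P : AA) : ℂ) = aeval γ P := by
        have := aeval_algHom_apply (integralClosure ℤ ℂ).val y P
        exact this.symm
      rw [h1, hγ]
      rfl
    obtain ⟨k, hk0, hk, hky⟩ := Pool.Agent.Work.TR.fix_one σ y P hP hyP
    refine ⟨y * x, ?_, ?_⟩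
    · push_cast
      rw [hx, Multiset.prod_cons]
    · obtain ⟨j, hj⟩ := hK k hk0 (by omega)
      have hpow : ∀ j : ℕ, (σ ^ (k * j)) y = y := by
        intro j
        rw [pow_mul]
        induction j with
        | zero => simp
        | succ j ih => rw [pow_succ, RingAut.mul_apply, hky, ih]
      rw [map_mul, hfix, hj, hpow]

/-- Distinctness in the orbits. -/
lemma distinct (hORB : Stmt_ORB2) {k b K' : ℕ} (hb : b ≤ k) (hK' : Nat.Coprime K' 3) (ξ : Om)
    (h1 : ξ ^ 3 ^ (k + 1) = 1) (h2 : ξ ^ 3 ^ k ≠ 1) {s t : ℕ} (hs : s < 3 ^ (k - b))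
    (ht : t < 3 ^ (k - b)) (h : ξ ^ 2 ^ (3 ^ b * K' * s) = ξ ^ 2 ^ (3 ^ b * K' * t)) : s = t := by
  obtain ⟨o1, -, o3⟩ := hORB k ξ h1 h2
  have hper1 : ξ ^ 2 ^ (2 * 3 ^ k) = ξ := by
    have h3 : 2 ^ (2 * 3 ^ k) = 2 ^ 3 ^ k * 2 ^ 3 ^ k := by rw [two_mul, pow_add]
    rw [h3, pow_mul, o1, inv_pow, o1, inv_inv]
  have hper : ∀ a : ℕ, ξ ^ 2 ^ (2 * 3 ^ k * a) = ξ := by
    intro a
    induction a with
    | zero => simp
    | succ a ih => rw [Nat.mul_succ, pow_add, pow_mul, ih, hper1]
  have hmod : ∀ a : ℕ, ξ ^ 2 ^ a = ξ ^ 2 ^ (a % (2 * 3 ^ k)) := by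
    intro a
    conv_lhs => rw [← Nat.div_add_mod a (2 * 3 ^ k)]
    rw [pow_add, pow_mul, hper]
  rw [hmod, hmod (3 ^ b * K' * t)] at h
  have hpos : 0 < 2 * 3 ^ k := by positivity
  have h3 := o3 _ (Nat.mod_lt _ hpos) _ (Nat.mod_lt _ hpos) h
  have h4 : 3 ^ b * K' * s ≡ 3 ^ b * K' * t [MOD 2 * 3 ^ k] := h3
  have h5 : 3 ^ b * (K' * s) ≡ 3 ^ b * (K' * t) [MOD 3 ^ b * 3 ^ (k - b)] := by
    rw [← pow_add, Nat.add_sub_cancel' hb, ← mul_assoc, ← mul_assoc]
    exact Nat.ModEq.of_mul_left 2 h4
  have h6 : K' * s ≡ K' * t [MOD 3 ^ (k - b)] :=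
    Nat.ModEq.mul_left_cancel' (by positivity) h5
  have h7 : s ≡ t [MOD 3 ^ (k - b)] := by
    refine Nat.ModEq.cancel_left_of_coprime ?_ h6
    have h8 : Nat.Coprime (3 ^ (k - b)) K' := Nat.Coprime.pow_left _ hK'.symm
    exact h8
  exact Nat.ModEq.eq_of_lt_of_lt h7 hs ht

end YREL

open YREL in
/-- Relations with a product of algebraic integers of small degree. -/
theorem yrel (hORB : Stmt_ORB2) (ρ : AA →+* Om) (σ : AA ≃+* AA) (hσ : ∀ x, ρ (σ x) = ρ x ^ 2)
    (k q : ℕ) (hq : 1 < q) (α : Fin (2 * 3 ^ k) → ℂ) (α' : Fin (2 * 3 ^ k) → AA)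
    (h1 : ∀ i, (α' i : ℂ) = α i)
    (h4 : ∀ i, ρ (α' i) ^ 3 ^ (k + 1) = 1 ∧ ρ (α' i) ^ 3 ^ k ≠ 1)
    (h6 : Function.Injective fun i => ρ (α' i))
    (hbar0 : ∀ i, ∃ j, α' i * α' j = (q : AA) ^ 2)
    (hnb : ∀ i j, α' i * α' j = (q : AA) ^ 2 → i ≠ j)
    (h10 : ∀ τ : AA ≃+* AA, ∀ i, ∃ j, τ (α' i) = α' j)
    (c : ℕ → Prop) (hc : ∀ a b, a ≤ b → c b → c a) (hR : RelP q α c) (b : ℕ) (hb : b ≤ k)
    (z : ℂ) (hz : Small q (3 ^ (b + 1)) z) (t : Multiset (Fin (2 * 3 ^ k)))
    (ht : t.card < 3 ^ (k - b)) (hct : c (2 * t.card)) (N : ℕ) (hN : 0 < N) (c0 : ℕ)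
    (hrel : z ^ N * (t.map fun i => α i ^ N).prod = ((q : ℂ) ^ N) ^ (c0 + t.card)) :
    (t.map α).prod = (q : ℂ) ^ t.card := by
  classical
  have hq0 : (q : ℂ) ≠ 0 := by
    have : q ≠ 0 := by omega
    exact_mod_cast this
  have hqA : (q : AA) ≠ 0 := by
    intro h
    apply hq0
    have h2 := congrArg (Subtype.val : AA → ℂ) h
    push_cast at h2
    exact h2
  choose bar hbarA using hbar0
  have hbar : ∀ i, α i * α (bar i) = (q : ℂ) ^ 2 := by
    intro i
    have h2 := congrArg (Subtype.val : AA → ℂ) (hbarA i)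
    push_cast at h2
    rw [← h1, ← h1]
    exact h2
  have hinjA : Function.Injective α' := by
    intro i j hij
    exact h6 (by simp only [hij])
  have hinj : Function.Injective α := by
    intro i j hij
    apply hinjA
    apply Subtype.val_injective
    show (α' i : ℂ) = α' j
    rw [h1, h1, hij]
  have hbb := bar_bar hq0 hbar hinj
  have hne : ∀ i, bar i ≠ i := fun i => (hnb i (bar i) (hbarA i)).symm
  obtain ⟨K', hK'0, hK', hK⟩ := exists_K b (3 ^ (b + 1)) le_rfl
  obtain ⟨M0, k0, hM0, t0, ht0, hzt0⟩ := hz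
  obtain ⟨x, hx, hfix⟩ := fix σ (3 ^ (b + 1)) (3 ^ b * K') hK t0 ht0
  set τ : AA ≃+* AA := σ ^ (3 ^ b * K') with hτ
  choose π hπ using h10 τ
  -- the relation
  set P : AA := (t.map α').prod with hP
  have hPC : (P : ℂ) = (t.map α).prod := by
    have h2 : (P : ℂ) = (integralClosure ℤ ℂ).val (t.map α').prod := rfl
    rw [h2, map_multiset_prod, Multiset.map_map]
    refine congrArg Multiset.prod (Multiset.map_congr rfl fun i _ => ?_)
    exact h1 i
  have hz0 : z ≠ 0 := by
    rintro rfl
    rw [zero_pow hN.ne', zero_mul] at hrel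
    exact pow_ne_zero _ (pow_ne_zero _ hq0) hrel.symm
  have hx0 : x ≠ 0 := by
    rintro rfl
    rw [← hx] at hzt0
    have h2 : z ^ M0 * (q : ℂ) ^ k0 = 0 := by
      rw [hzt0]
      rfl
    exact mul_ne_zero (pow_ne_zero _ hz0) (pow_ne_zero _ hq0) h2
  have hrelA : x ^ N * P ^ (N * M0) = (q : AA) ^ (k0 * N + N * (c0 + t.card) * M0) := by
    apply Subtype.val_injective
    push_cast
    rw [hx, ← hzt0, hPC]
    rw [Multiset.prod_map_pow] at hrel
    calc (z ^ M0 * (q : ℂ) ^ k0) ^ N * (t.map α).prod ^ (N * M0) =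
        (z ^ N * (t.map α).prod ^ N) ^ M0 * (q : ℂ) ^ (k0 * N) := by ring
      _ = _ := by rw [hrel]; ring
  have hrelB : x ^ N * (τ P) ^ (N * M0) = (q : AA) ^ (k0 * N + N * (c0 + t.card) * M0) := by
    have h2 := congrArg τ hrelA
    rw [map_mul, map_pow, map_pow, map_pow, map_natCast, hfix] at h2
    exact h2
  have hPP : (τ P) ^ (N * M0) = P ^ (N * M0) := by
    rw [← hrelA] at hrelB
    exact mul_left_cancel₀ (pow_ne_zero _ hx0) hrelB
  have hτP : ((τ P : AA) : ℂ) = ((t.map π).map α).prod := by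
    have h2 : ((τ P : AA) : ℂ) = (integralClosure ℤ ℂ).val (τ (t.map α').prod) := rfl
    rw [h2, map_multiset_prod, map_multiset_prod, Multiset.map_map, Multiset.map_map,
      Multiset.map_map]
    refine congrArg Multiset.prod (Multiset.map_congr rfl fun i _ => ?_)
    show ((τ (α' i) : AA) : ℂ) = α (π i)
    rw [hπ, h1]
  have hbal := bal_of_rel hc hR hq0 hbar hinj (N * M0) (Nat.mul_pos hN hM0) (2 * t.card)
    (t.map π + t.map bar) (by rw [Multiset.card_add, Multiset.card_map, Multiset.card_map]; ring)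
    hct (by
      have h2 := congrArg (Subtype.val : AA → ℂ) hPP
      push_cast at h2
      rw [hτP, hPC] at h2
      rw [Multiset.map_add, Multiset.prod_add, mul_pow, h2, ← mul_pow, Multiset.map_map,
        Multiset.card_add, Multiset.card_map, Multiset.card_map]
      congr 1
      rw [← Multiset.prod_map_mul]
      have h3 : (t.map fun i => α i * (α ∘ bar) i) = t.map fun _ => (q : ℂ) ^ 2 :=
        Multiset.map_congr rfl fun i _ => hbar i
      rw [h3, Multiset.map_const', Multiset.prod_replicate]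
      ring)
  -- properties of the permutation
  have hπinj : Function.Injective π := by
    intro i j hij
    apply hinjA
    apply τ.injective
    rw [hπ, hπ, hij]
  have hπbar : ∀ i, π (bar i) = bar (π i) := by
    intro i
    apply hinj
    have h2 := congrArg τ (hbarA i)
    rw [map_mul, map_pow, map_natCast, hπ, hπ] at h2
    have h3 := congrArg (Subtype.val : AA → ℂ) h2
    push_cast at h3
    rw [h1, h1, ← hbar (π i)] at h3
    exact mul_left_cancel₀ (ne_zero hq0 hbar (π i)) h3
  have hbarinj : Function.Injective bar := fun i j hij => by rw [← hbb i, hij, hbb]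
  have hd : ∀ i, (t.count (π i) : ℤ) - t.count (bar (π i)) = t.count i - t.count (bar i) := by
    intro i
    have h2 := hbal (π i)
    rw [Multiset.count_add, Multiset.count_add, Multiset.count_map_eq_count' bar t hbarinj,
      Multiset.count_map_eq_count' π t hπinj, ← hπbar, Multiset.count_map_eq_count' π t hπinj]
      at h2
    have h3 : (t.map bar).count (π i) = t.count (bar (π i)) := by
      conv_lhs => rw [← hbb (π i)]
      exact Multiset.count_map_eq_count' bar t hbarinj _
    omega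
  have hρπ : ∀ (a : ℕ) (i : Fin (2 * 3 ^ k)),
      ρ (α' (π^[a] i)) = ρ (α' i) ^ 2 ^ (3 ^ b * K' * a) := by
    have hσn : ∀ (n : ℕ) (x : AA), ρ ((σ ^ n) x) = ρ x ^ 2 ^ n := by
      intro n
      induction n with
      | zero => intro x; simp
      | succ n ih =>
        intro x
        rw [pow_succ, RingAut.mul_apply, ih, hσ, ← pow_mul, pow_succ, mul_comm 2]
    intro a
    induction a with
    | zero => intro i; simp
    | succ a ih =>
      intro i
      rw [Function.iterate_succ_apply', ← hπ, hτ, hσn, ih, ← pow_mul, ← pow_add]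
      congr 2
  have htbal := bal_of_orbit hbb π (3 ^ (k - b)) (fun i a ha a' ha' haa => by
    have h2 : ρ (α' (π^[a] i)) = ρ (α' (π^[a'] i)) := by rw [haa]
    rw [hρπ, hρπ] at h2
    exact distinct hORB hb hK' _ (h4 i).1 (h4 i).2 ha ha' h2) t ht hd
  exact prod_of_bal hbar hbb hne t.card t rfl htbal

end Pool.Agent.Work.ES
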